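import Pool.Agent.K9h48.MG.Main
import Pool.Agent.TH163.AC3.Col

/-!
# Memory computed by polynomials, and by gates modulo `m` on top of circuits
-/

set_option autoImplicit false
set_option linter.unusedSectionVars false

namespace Pool.Agent.K9h48.MG

open Finset H568R2
open Pool.Agent.H699R2.OMV (Prog Vec Mat IsProb before avg)
open Pool.Agent.TH163.AC2 (toM coord coord_toM)
open Pool.Agent.TH163.AC3 (HasDT Shallow node_dt collapse')

/-! ### polynomials -/

lemma isDeg_poly {I : Type} [Fintype I] [DecidableEq I] {m D : ℕ} (P : MvPolynomial I (ZMod m))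
    (hP : P.totalDegree ≤ D) (ρ : Restr I) : IsDeg m D (fun x : I → Bool =>
      MvPolynomial.eval (fun z => if ov ρ x z = true then (1 : ZMod m) else 0) P) := by
  have h1 : (fun x : I → Bool =>
      MvPolynomial.eval (fun z => if ov ρ x z = true then (1 : ZMod m) else 0) P) =
      fun x => ∑ d ∈ P.support, P.coeff d *
        ∏ i ∈ d.support, (if ov ρ x i = true then (1 : ZMod m) else 0) ^ d i := by
    funext x
    rw [MvPolynomial.eval_eq]
  rw [h1]
  apply IsDeg.sum P.support (fun d x => P.coeff d *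
        ∏ i ∈ d.support, (if ov ρ x i = true then (1 : ZMod m) else 0) ^ d i)
  intro d hd
  refine IsDeg.junta d.support ?_ _ ?_
  · refine le_trans ?_ ((MvPolynomial.le_totalDegree hd).trans hP)
    rw [Finsupp.sum, Finset.card_eq_sum_ones]
    apply Finset.sum_le_sum
    intro i hi
    exact Nat.one_le_iff_ne_zero.2 (Finsupp.mem_support_iff.1 hi)
  · intro x y hxy
    congr 1
    apply Finset.prod_congr rfl
    intro i hi
    have h2 : ov ρ x i = ov ρ y i := by
      unfold ov
      rw [hxy i hi]
    rw [h2]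

variable {n : ℕ} {Ω A W : Type}

lemma cells_poly {alg : Alg n Ω A W} {m D w e : ℕ} (ω : Ω) (h : List (Vec n)) (G : (Mat n)ˣ)
    (B : Fin n → (Mat n)ˣ) (f : Mat n → Fin e → Bool)
    (hP : ∀ (a : A) (y : Fin e → Bool),
    ∃ (P : Fin w → MvPolynomial (Fin n × Fin n) (ZMod m)) (S : (Fin w → ZMod m) → W),
      (∀ i, (P i).totalDegree ≤ D) ∧ ∀ M : Mat n, f M = y →
        alg.mem ω h M a = S (fun i =>
          MvPolynomial.eval (fun z => if coord G B M z = true then (1 : ZMod m) else 0) (P i)))
    (ρ : Restr (Fin n × Fin n)) : Cells alg ω h G B f m D w ρ := by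
  intro y a
  obtain ⟨P, S, hPd, hM⟩ := hP a y
  refine ⟨fun i x => MvPolynomial.eval
    (fun z => if ov ρ x z = true then (1 : ZMod m) else 0) (P i), S,
    fun i => isDeg_poly (P i) (hPd i) ρ, ?_⟩
  intro x hx
  rw [hM _ hx, coord_toM]

/-! ### decision trees -/

lemma isDeg_tree {I : Type} [Fintype I] [DecidableEq I] {m : ℕ} (t : Pool.Agent.TH163.AC3.Tree I) (c : ZMod m) :
    IsDeg m t.depth (fun x : I → Bool => if t.eval x = true then c else 0) := by
  -- a general statement: multiplication by an indicator of one variable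
  have key : ∀ (i : I) (b : Bool) (D : ℕ) (F : (I → Bool) → ZMod m), IsDeg m D F →
      IsDeg m (D + 1) (fun x => if x i = b then F x else 0) := by
    intro i b D F hF
    induction hF with
    | junta A hA f hf =>
      refine IsDeg.junta (insert i A) ((Finset.card_insert_le _ _).trans (by omega)) _ ?_
      intro x y hxy
      have h1 : x i = y i := hxy i (Finset.mem_insert_self _ _)
      have h2 : f x = f y := hf x y (fun j hj => hxy j (Finset.mem_insert_of_mem hj))
      rw [h1, h2]
    | add f g _ _ ihf ihg =>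
      have := IsDeg.add _ _ ihf ihg
      refine (congrArg (IsDeg m (D + 1)) ?_).mp this
      funext x
      split_ifs
      · rfl
      · ring
  induction t with
  | leaf b =>
    exact IsDeg.junta ∅ (by simp) _ (fun x y _ => rfl)
  | node i a b iha ihb =>
    have hd : (Pool.Agent.TH163.AC3.Tree.node i a b).depth = max a.depth b.depth + 1 := rfl
    have he : ∀ x : I → Bool, (Pool.Agent.TH163.AC3.Tree.node i a b).eval x =
        if x i = true then b.eval x else a.eval x := fun x => rfl
    have h1 := (key i true _ _ ihb).mono (D' := (Pool.Agent.TH163.AC3.Tree.node i a b).depth) (by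
      rw [hd]
      have := le_max_right a.depth b.depth
      omega)
    have h2 := (key i false _ _ iha).mono (D' := (Pool.Agent.TH163.AC3.Tree.node i a b).depth) (by
      rw [hd]
      have := le_max_left a.depth b.depth
      omega)
    have h3 := IsDeg.add _ _ h1 h2
    refine (congrArg (IsDeg m (Pool.Agent.TH163.AC3.Tree.node i a b).depth) ?_).mp h3
    funext x
    rw [he]
    by_cases hx : x i = true
    · simp [hx]
    · have hx' : x i = false := by simpa using hx
      simp [hx']

lemma isDeg_dt {I : Type} [Fintype I] [DecidableEq I] {m t : ℕ} {f : (I → Bool) → Bool}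
    (h : HasDT t f) (c : ZMod m) :
    IsDeg m t (fun x : I → Bool => if f x = true then c else 0) := by
  obtain ⟨τ, hτ, he⟩ := h
  have h1 := (isDeg_tree (m := m) τ c).mono hτ
  simp only [he] at h1
  exact h1

open Classical in
lemma cells_circ [Fintype A] {w : ℕ} {alg : Alg n Ω A (Fin w → Bool)} {m d s e : ℕ} (ω : Ω)
    (h : List (Vec n)) (G : (Mat n)ˣ) (B : Fin n → (Mat n)ˣ) (f : Mat n → Fin e → Bool)
    (hP : ∀ (a : A) (i : Fin w) (y : Fin e → Bool),
    ∃ (C : Fin s → DomAC0.Circuit (Fin n × Fin n)) (c : Fin s → ZMod m) (S : ZMod m → Bool),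
      (∀ j, (C j).size ≤ s ∧ (C j).depth ≤ d) ∧ ∀ M : Mat n, f M = y →
        alg.mem ω h M a i = S (∑ j, if (C j).eval (coord G B M) = true then c j else 0))
    {q : ℝ} (h0 : 0 ≤ q) (h1 : q ≤ 1 / 3) {t : ℕ} (ht : 1 ≤ t) :
    Ex (wq (q ^ d)) (fun ρ : Restr (Fin n × Fin n) =>
        if ¬ Cells alg ω h G B f m t w ρ then (1 : ℝ) else 0) ≤
      (2 ^ e * (Fintype.card A * w) * s : ℕ) * (d * s * (12 * t * q) ^ (t + 1)) := by
  choose C c S hC hM using hP
  have hp0 : 0 ≤ q ^ d := pow_nonneg h0 d
  have hp1 : q ^ d ≤ 1 := pow_le_one₀ h0 (by linarith)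
  have hpt : ∀ ρ : Restr (Fin n × Fin n),
      (if ¬ Cells alg ω h G B f m t w ρ then (1 : ℝ) else 0) ≤
      ∑ z : (Fin e → Bool) × (A × Fin w) × Fin s,
        (if ¬ Shallow (C z.2.1.1 z.2.1.2 z.1 z.2.2) t d ρ then (1 : ℝ) else 0) := by
    intro ρ
    have hnn : ∀ z ∈ (univ : Finset ((Fin e → Bool) × (A × Fin w) × Fin s)),
        (0 : ℝ) ≤ (if ¬ Shallow (C z.2.1.1 z.2.1.2 z.1 z.2.2) t d ρ then (1 : ℝ) else 0) := by
      intro z _
      split_ifs <;> norm_num
    by_cases hg : Cells alg ω h G B f m t w ρ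
    · rw [if_neg (not_not.2 hg)]
      exact Finset.sum_nonneg hnn
    · rw [if_pos hg]
      have hex : ∃ a i y j, ¬ Shallow (C a i y j) t d ρ := by
        by_contra hcon
        push Not at hcon
        apply hg
        intro y a
        refine ⟨fun i x => ∑ j, if (C a i y j).eval (ov ρ x) = true then c a i y j else 0,
          fun u i => S a i y (u i), ?_, ?_⟩
        · intro i
          apply IsDeg.sum univ
            (fun j x => if (C a i y j).eval (ov ρ x) = true then c a i y j else 0)
          intro j _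
          have h4 := node_dt (C a i y j) ht (hcon a i y j) (C a i y j).output (hC a i y j).2
          exact isDeg_dt h4 (c a i y j)
        · intro x hx
          funext i
          rw [hM a i y _ hx, coord_toM]
      obtain ⟨a, i, y, j, hz⟩ := hex
      refine le_trans ?_ (Finset.single_le_sum hnn (Finset.mem_univ (y, (a, i), j)))
      rw [if_pos hz]
  refine (Ex_mono (wq_nonneg hp0 hp1) hpt).trans ?_
  rw [Ex_sum]
  have hterm : ∀ z ∈ (univ : Finset ((Fin e → Bool) × (A × Fin w) × Fin s)),
      Ex (wq (q ^ d)) (fun ρ : Restr (Fin n × Fin n) =>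
        (if ¬ Shallow (C z.2.1.1 z.2.1.2 z.1 z.2.2) t d ρ then (1 : ℝ) else 0)) ≤
        d * s * (12 * t * q) ^ (t + 1) := by
    intro z _
    have h5 := collapse' (C z.2.1.1 z.2.1.2 z.1 z.2.2) h0 h1 ht d
    refine h5.trans ?_
    apply mul_le_mul_of_nonneg_right _ (by positivity)
    apply mul_le_mul_of_nonneg_left _ (by positivity)
    exact_mod_cast (hC z.2.1.1 z.2.1.2 z.1 z.2.2).1
  refine (Finset.sum_le_card_nsmul _ _ _ hterm).trans (le_of_eq ?_)
  rw [nsmul_eq_mul, Finset.card_univ]
  simp only [Fintype.card_prod, Fintype.card_fun, Fintype.card_bool, Fintype.card_fin]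
  congr 2
  ring

end Pool.Agent.K9h48.MG
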