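import Pool.Agent.K9h48.MG.Corr
import Pool.Agent.TH163.AC2.Stars

/-!
# Vectors with few ones
-/

set_option autoImplicit false
set_option linter.unusedSectionVars false

namespace Pool.Agent.K9h48.MG

open Finset
open Pool.Agent.H699R2.OMV (Vec Mat)

variable {n : ℕ}

/-- the vector has fewer than `D0` ones in `S` -/
def Low (S : Finset (Fin n)) (D0 : ℕ) (z : Vec n) : Prop := (S.filter (fun c => z c ≠ 0)).card < D0

instance (S : Finset (Fin n)) (D0 : ℕ) : DecidablePred (Low (n := n) S D0) := fun z => by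
  unfold Low; infer_instance

lemma sum_pow_ones (S : Finset (Fin n)) (y : ℝ) :
    ∑ z : Vec n, y ^ (S.filter (fun c => z c ≠ 0)).card = (1 + y) ^ S.card * 2 ^ (n - S.card) := by
  classical
  have h1 : ∀ z : Vec n, y ^ (S.filter (fun c => z c ≠ 0)).card =
      ∏ c, (if c ∈ S ∧ z c ≠ 0 then y else 1) := by
    intro z
    rw [Finset.prod_ite, Finset.prod_const, Finset.prod_const_one, mul_one]
    congr 2
    ext c
    simp
  simp only [h1]
  have h2 := Finset.prod_univ_sum (fun _ : Fin n => (univ : Finset (ZMod 2)))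
    (fun c a => (if c ∈ S ∧ a ≠ 0 then y else 1))
  rw [Fintype.piFinset_univ] at h2
  have h3 : ∀ c : Fin n, ∑ a : ZMod 2, (if c ∈ S ∧ a ≠ 0 then y else (1 : ℝ)) =
      if c ∈ S then 1 + y else 2 := by
    intro c
    have hu : (univ : Finset (ZMod 2)) = {0, 1} := by decide
    rw [hu, Finset.sum_pair (by decide)]
    by_cases hc : c ∈ S
    · simp [hc]
    · simp [hc]
      norm_num
  rw [← h2, Finset.prod_congr rfl (fun c _ => h3 c), Finset.prod_ite, Finset.prod_const,
    Finset.prod_const]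
  congr 1
  · congr 1
    congr 1
    ext c
    simp
  · congr 1
    have h4 : (univ.filter (fun c => c ∉ S)) = Sᶜ := by
      ext c
      simp
    rw [h4, Finset.card_compl, Fintype.card_fin]

lemma low_count (S : Finset (Fin n)) (D0 : ℕ) (hS : 16 * D0 ≤ S.card) :
    ((univ.filter (fun z : Vec n => Low S D0 z)).card : ℝ) ≤ 2 ^ n / 2 ^ (10 * D0) := by
  classical
  have h1 := sum_pow_ones S (1 / 16 : ℝ)
  have h2 : ((univ.filter (fun z : Vec n => Low S D0 z)).card : ℝ) * (1 / 16) ^ D0 ≤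
      ∑ z : Vec n, (1 / 16 : ℝ) ^ (S.filter (fun c => z c ≠ 0)).card := by
    rw [← nsmul_eq_mul]
    refine le_trans ?_ (Finset.sum_le_sum_of_subset_of_nonneg
      (Finset.filter_subset (fun z : Vec n => Low S D0 z) univ) (fun z _ _ => by positivity))
    apply Finset.card_nsmul_le_sum
    intro z hz
    have h3 : (S.filter (fun c => z c ≠ 0)).card < D0 := (Finset.mem_filter.1 hz).2
    exact pow_le_pow_of_le_one (by norm_num) (by norm_num) h3.le
  have hSn : S.card ≤ n := by
    have := Finset.card_le_univ S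
    rwa [Fintype.card_fin] at this
  have h4 : (1 + 1 / 16 : ℝ) ^ S.card * 2 ^ (n - S.card) = 2 ^ n * (17 / 32) ^ S.card := by
    have h5 : (2 : ℝ) ^ n = 2 ^ (n - S.card) * 2 ^ S.card := by
      rw [← pow_add]
      congr 1
      omega
    rw [h5, show (17 / 32 : ℝ) = (1 + 1 / 16) / 2 by norm_num, div_pow]
    field_simp
  have h6 : (17 / 32 : ℝ) ^ S.card ≤ (17 / 32) ^ (16 * D0) :=
    pow_le_pow_of_le_one (by norm_num) (by norm_num) hS
  have h7 : (17 / 32 : ℝ) ^ (16 * D0) * 16 ^ D0 ≤ 1 / 2 ^ (10 * D0) := by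
    rw [pow_mul, pow_mul, ← mul_pow, one_div, ← inv_pow]
    apply pow_le_pow_left₀ (by positivity)
    norm_num
  rw [h1, h4] at h2
  have h8 : (0 : ℝ) < (1 / 16) ^ D0 := by positivity
  have h9 : (0 : ℝ) < 2 ^ n := by positivity
  rw [← le_div_iff₀ h8] at h2
  refine h2.trans ?_
  rw [div_eq_mul_one_div ((2 : ℝ) ^ n * (17 / 32) ^ S.card)]
  have h10 : 1 / (1 / 16 : ℝ) ^ D0 = 16 ^ D0 := by
    rw [one_div_pow, one_div_one_div]
  rw [h10]
  calc (2 : ℝ) ^ n * (17 / 32) ^ S.card * 16 ^ D0 ≤ 2 ^ n * (17 / 32) ^ (16 * D0) * 16 ^ D0 := by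
        gcongr
    _ = 2 ^ n * ((17 / 32) ^ (16 * D0) * 16 ^ D0) := by ring
    _ ≤ 2 ^ n * (1 / 2 ^ (10 * D0)) := mul_le_mul_of_nonneg_left h7 h9.le
    _ = 2 ^ n / 2 ^ (10 * D0) := by ring

/-- a combination of the transformed earlier vectors -/
def comb (B : (Mat n)ˣ) (h : List (Vec n)) (U : Fin h.length → ZMod 2) : Vec n :=
  fun c => ∑ i, U i * ((↑B⁻¹ : Mat n).mulVec (h.get i)) c

/-- some combination is low -/
def BadV (B : (Mat n)ˣ) (S : Finset (Fin n)) (h : List (Vec n)) (D0 : ℕ) (v : Vec n) : Prop :=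
  ∃ U : Fin h.length → ZMod 2, Low S D0 ((↑B⁻¹ : Mat n).mulVec v + comb B h U)

open Classical in
lemma bad_count (B : (Mat n)ˣ) (S : Finset (Fin n)) (h : List (Vec n)) (D0 : ℕ)
    (hS : 16 * D0 ≤ S.card) :
    ((univ.filter (fun v : Vec n => BadV B S h D0 v)).card : ℝ) ≤
      2 ^ h.length * (2 ^ n / 2 ^ (10 * D0)) := by
  have hsub : univ.filter (fun v : Vec n => BadV B S h D0 v) ⊆
      (univ : Finset (Fin h.length → ZMod 2)).biUnion (fun U => univ.filter (fun v : Vec n =>
        Low S D0 ((↑B⁻¹ : Mat n).mulVec v + comb B h U))) := by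
    intro v hv
    obtain ⟨U, hU⟩ := (Finset.mem_filter.1 hv).2
    rw [Finset.mem_biUnion]
    exact ⟨U, Finset.mem_univ _, Finset.mem_filter.2 ⟨Finset.mem_univ _, hU⟩⟩
  have h1 : ∀ U : Fin h.length → ZMod 2, (univ.filter (fun v : Vec n =>
        Low S D0 ((↑B⁻¹ : Mat n).mulVec v + comb B h U))).card ≤
      (univ.filter (fun z : Vec n => Low S D0 z)).card := by
    intro U
    apply Finset.card_le_card_of_injOn (fun v => (↑B⁻¹ : Mat n).mulVec v + comb B h U)
    · intro v hv
      have hv' := (Finset.mem_filter.1 (Finset.mem_coe.1 hv)).2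
      exact Finset.mem_coe.2 (Finset.mem_filter.2 ⟨Finset.mem_univ _, hv'⟩)
    · intro v _ v' _ hvv
      have h2 := add_right_cancel hvv
      have h3 := congrArg (fun z => (B : Mat n).mulVec z) h2
      simpa [Matrix.mulVec_mulVec] using h3
  have h2 : ((univ.filter (fun v : Vec n => BadV B S h D0 v)).card : ℝ) ≤
      ∑ _U : Fin h.length → ZMod 2, ((univ.filter (fun z : Vec n => Low S D0 z)).card : ℝ) := by
    have h3 := (Finset.card_le_card hsub).trans Finset.card_biUnion_le
    have h4 := h3.trans (Finset.sum_le_sum (fun U _ => h1 U))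
    exact_mod_cast h4
  refine h2.trans ?_
  rw [Finset.sum_const, Finset.card_univ, Fintype.card_fun, ZMod.card, Fintype.card_fin,
    nsmul_eq_mul]
  push_cast
  exact mul_le_mul_of_nonneg_left (low_count S D0 hS) (by positivity)

end Pool.Agent.K9h48.MG
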