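import Pool.Agent.K9h48.MG.Succ3
import Pool.Agent.TH163.AC2.Core

/-!
# Averages over the matrices and the streams
-/

set_option autoImplicit false
set_option linter.unusedSectionVars false

namespace Pool.Agent.K9h48.MG

open Finset H568R2
open Pool.Agent.H699R2.OMV (Prog Vec Mat IsProb before avg)
open Pool.Agent.TH163.AC2 (toMat toM gm gm_eq toM_mulVec free unif unif_mono unif_const unif_add
  unif_smul unif_sum unif_nonneg unif_restr mavg mavg_eq avg_eq mavg_sum_mul sum_before few_free)

variable {n : ℕ} {Ω A W : Type}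

/-- expected number of probes over a random matrix -/
noncomputable def lenE (alg : Alg n Ω A W) (ω : Ω) (h : List (Vec n)) (v : Vec n) : ℝ :=
  mavg (fun M => ((alg.adr ω h M v).length : ℝ))

/-- probability over a random matrix that the answer is right -/
noncomputable def rightE (alg : Alg n Ω A W) (ω : Ω) (h : List (Vec n)) (v : Vec n) : ℝ :=
  mavg (fun M => if alg.ans ω h M v = M.mulVec v then (1 : ℝ) else 0)

theorem core [Fintype Ω] (alg : Alg n Ω A W) (μ : Ω → ℝ) (hμ : IsProb μ) {γ : ℝ}
    (hR : alg.Right μ γ) (Q : ℕ) (hQ : Q ≤ n) {P β : ℝ} (hP0 : 0 ≤ P)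
    (hmain : ∀ ω (h : List (Vec n)), h.length < Q →
      2 ^ n * (-(P * β)) ≤ ∑ v, (lenE alg ω h v - P * rightE alg ω h v)) :
    Q * (P * (γ - β)) ≤ alg.cost μ := by
  have hcV : (0 : ℝ) < (Fintype.card (Fin n → Vec n) : ℝ) := by
    exact_mod_cast Fintype.card_pos
  let T : Fin n → ℝ := fun q => avg (fun M vs =>
      ∑ ω, μ ω * ((alg.probes ω M vs q).length : ℝ))
  have hT : ∀ q, T q = (∑ ω, μ ω * ∑ vs : Fin n → Vec n, lenE alg ω (before vs q) (vs q)) /
      (Fintype.card (Fin n → Vec n) : ℝ) := by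
    intro q
    show avg _ = _
    rw [avg_eq]
    congr 1
    simp only [mavg_sum_mul]
    rw [Finset.sum_comm]
    apply Finset.sum_congr rfl
    intro ω _
    rw [Finset.mul_sum]
    rfl
  have hE : ∀ q : Fin n, γ ≤ (∑ ω, μ ω * ∑ vs : Fin n → Vec n,
      rightE alg ω (before vs q) (vs q)) / (Fintype.card (Fin n → Vec n) : ℝ) := by
    intro q
    have := hR q
    rw [avg_eq] at this
    simp only [mavg_sum_mul] at this
    rw [Finset.sum_comm] at this
    refine le_trans this (le_of_eq ?_)
    congr 1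
    apply Finset.sum_congr rfl
    intro ω _
    rw [Finset.mul_sum]
    rfl
  have hTnn : ∀ q, 0 ≤ T q := by
    intro q
    rw [hT]
    apply div_nonneg _ hcV.le
    apply Finset.sum_nonneg
    intro ω _
    apply mul_nonneg (hμ.nonneg ω)
    apply Finset.sum_nonneg
    intro vs _
    unfold lenE mavg
    positivity
  have hone : ∀ q : Fin n, q.val < Q → P * (γ - β) ≤ T q := by
    intro q hq
    have hG : ∀ ω, (Fintype.card (Fin n → Vec n) : ℝ) * (-(P * β)) ≤
        ∑ vs : Fin n → Vec n, (lenE alg ω (before vs q) (vs q) -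
          P * rightE alg ω (before vs q) (vs q)) := by
      intro ω
      apply sum_before (fun h v => lenE alg ω h v - P * rightE alg ω h v)
      intro h hh
      exact hmain ω h (by omega)
    have hsum : (Fintype.card (Fin n → Vec n) : ℝ) * (-(P * β)) ≤
        (∑ ω, μ ω * ∑ vs : Fin n → Vec n, lenE alg ω (before vs q) (vs q)) -
        P * ∑ ω, μ ω * ∑ vs : Fin n → Vec n, rightE alg ω (before vs q) (vs q) := by
      have h4 := Finset.sum_le_sum (fun ω (_ : ω ∈ (univ : Finset Ω)) =>
        mul_le_mul_of_nonneg_left (hG ω) (hμ.nonneg ω))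
      rw [← Finset.sum_mul, hμ.sum_one, one_mul] at h4
      refine h4.trans (le_of_eq ?_)
      rw [Finset.mul_sum, ← Finset.sum_sub_distrib]
      apply Finset.sum_congr rfl
      intro ω _
      rw [Finset.sum_sub_distrib, ← Finset.mul_sum]
      ring
    have h5 : -(P * β) ≤ T q - P * ((∑ ω, μ ω *
        ∑ vs : Fin n → Vec n, rightE alg ω (before vs q) (vs q)) /
          (Fintype.card (Fin n → Vec n) : ℝ)) := by
      rw [hT, ← mul_div_assoc, ← sub_div, le_div_iff₀ hcV]
      linarith
    have h7 := mul_le_mul_of_nonneg_left (hE q) hP0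
    linarith
  have htot : alg.cost μ = ∑ q, T q := by
    show _ = ∑ q, avg _
    unfold Alg.cost avg
    rw [← Finset.sum_div]
    congr 1
    symm
    rw [Finset.sum_comm]
    apply Finset.sum_congr rfl
    intro M _
    rw [Finset.sum_comm]
    apply Finset.sum_congr rfl
    intro vs _
    rw [Finset.sum_comm]
    apply Finset.sum_congr rfl
    intro ω _
    rw [Finset.mul_sum]
  rw [htot]
  have hsub : ∑ q ∈ univ.filter (fun q : Fin n => q.val < Q), T q ≤ ∑ q, T q := by
    apply Finset.sum_le_sum_of_subset_of_nonneg (Finset.filter_subset _ _)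
    intro q _ _
    exact hTnn q
  refine le_trans ?_ hsub
  have hcard : (univ.filter (fun q : Fin n => q.val < Q)).card = Q := by
    rw [Fin.card_filter_val_lt, min_eq_right hQ]
  have := Finset.card_nsmul_le_sum (univ.filter (fun q : Fin n => q.val < Q))
    (fun q => T q) (P * (γ - β)) (by
      intro q hq
      exact hone q (Finset.mem_filter.1 hq).2)
  rw [hcard, nsmul_eq_mul] at this
  exact this

/-- under the restriction `ρ` the cells are functions of `w` functions of degree `D`, for each value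
of the side information -/
def Cells (alg : Alg n Ω A W) (ω : Ω) (h : List (Vec n)) (G : (Mat n)ˣ)
    (B : Fin n → (Mat n)ˣ) {e : ℕ} (f : Mat n → Fin e → Bool) (m D w : ℕ)
    (ρ : Restr (Fin n × Fin n)) : Prop :=
  ∀ (y : Fin e → Bool) (a : A), ∃ (F : Fin w → (Fin n × Fin n → Bool) → ZMod m)
    (S : (Fin w → ZMod m) → W), (∀ i, IsDeg m D (F i)) ∧ ∀ x, f (toM G B (ov ρ x)) = y →
      alg.mem ω h (toM G B (ov ρ x)) a = S (fun i => F i x)

/-- the error term -/
noncomputable def err (n m D w e ℓ D0 k0 T : ℕ) : ℝ :=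
  2 ^ e * (1 / 2 ^ (10 * k0) + 2 ^ (n * ℓ) *
        (((m : ℝ) ^ w) ^ T * (1 - (2 / (m * 2 ^ m : ℝ)) ^ D) ^ (D0 * k0)))

lemma one_restr_good {m : ℕ} [NeZero m] (hm : Odd m) (alg : Alg n Ω A W) (ω : Ω)
    (h : List (Vec n)) (G : (Mat n)ˣ) (B : Fin n → (Mat n)ˣ) {e : ℕ}
    (f : Mat n → Fin e → Bool) (D w : ℕ) (ρ : Restr (Fin n × Fin n)) (v : Vec n)
    (D0 k0 T : ℕ) (hc : Cells alg ω h G B f m D w ρ) (hv : GoodV B ρ h D0 v) (hk : 16 * k0 ≤ n) :
    (T + 1 : ℝ) * unif (fun x => if alg.ans ω h (toM G B (ov ρ x)) v =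
        (toM G B (ov ρ x)).mulVec v then (1 : ℝ) else 0) ≤
      unif (fun x => ((alg.adr ω h (toM G B (ov ρ x)) v).length : ℝ)) +
      (T + 1) * err n m D w e h.length D0 k0 T := by
  classical
  choose F S hF hS using hc
  have h1 : ∀ y : Fin e → Bool, unif (evI G B ρ (fun l => alg.prog ω h l v)
      (fun x a => S y a (fun i => F y a i x)) h v T) ≤
      1 / 2 ^ (10 * k0) + 2 ^ (n * h.length) *
        (((m : ℝ) ^ w) ^ T * (1 - (2 / (m * 2 ^ m : ℝ)) ^ D) ^ (D0 * k0)) := by
    intro y
    exact succ_le G B ρ hm D (fun l => alg.prog ω h l v) (F y) (hF y) (S y) h v D0 k0 T hv hk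
  have h2 : ∀ x, (T + 1 : ℝ) * (if alg.ans ω h (toM G B (ov ρ x)) v =
        (toM G B (ov ρ x)).mulVec v then (1 : ℝ) else 0) ≤
      ((alg.adr ω h (toM G B (ov ρ x)) v).length : ℝ) +
      (T + 1) * ∑ y : Fin e → Bool, evI G B ρ (fun l => alg.prog ω h l v)
        (fun x a => S y a (fun i => F y a i x)) h v T x := by
    intro x
    have hev0 : ∀ y : Fin e → Bool, 0 ≤ evI G B ρ (fun l => alg.prog ω h l v)
        (fun x a => S y a (fun i => F y a i x)) h v T x := by
      intro y
      unfold evI
      split_ifs <;> norm_num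
    have hs0 : 0 ≤ ∑ y : Fin e → Bool, evI G B ρ (fun l => alg.prog ω h l v)
        (fun x a => S y a (fun i => F y a i x)) h v T x := Finset.sum_nonneg (fun y _ => hev0 y)
    have hT0 : (0 : ℝ) ≤ T := Nat.cast_nonneg T
    by_cases h3 : alg.ans ω h (toM G B (ov ρ x)) v = (toM G B (ov ρ x)).mulVec v
    · rw [if_pos h3, mul_one]
      by_cases h4 : (alg.adr ω h (toM G B (ov ρ x)) v).length ≤ T
      · have h5 : (1 : ℝ) ≤ ∑ y : Fin e → Bool, evI G B ρ (fun l => alg.prog ω h l v)
            (fun x a => S y a (fun i => F y a i x)) h v T x := by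
          set y0 := f (toM G B (ov ρ x)) with hy0
          refine le_trans ?_ (Finset.single_le_sum (fun y _ => hev0 y) (Finset.mem_univ y0))
          have h6 : (fun a => S y0 a (fun i => F y0 a i x)) =
              alg.mem ω h (toM G B (ov ρ x)) := by
            funext a
            exact (hS y0 a x hy0.symm).symm
          have h8 : (alg.prog ω h (h.map (toM G B (ov ρ x)).mulVec) v).out
              (fun a => S y0 a (fun i => F y0 a i x)) = (toM G B (ov ρ x)).mulVec v ∧
              ((alg.prog ω h (h.map (toM G B (ov ρ x)).mulVec) v).addrs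
                (fun a => S y0 a (fun i => F y0 a i x))).length ≤ T := by
            rw [h6]
            exact ⟨h3, h4⟩
          unfold evI
          rw [if_pos h8]
        have h7 : (0 : ℝ) ≤ ((alg.adr ω h (toM G B (ov ρ x)) v).length : ℝ) := Nat.cast_nonneg _
        nlinarith
      · have h5 : (T + 1 : ℝ) ≤ ((alg.adr ω h (toM G B (ov ρ x)) v).length : ℝ) := by
          have : T + 1 ≤ (alg.adr ω h (toM G B (ov ρ x)) v).length := by omega
          exact_mod_cast this
        have h6 := mul_nonneg (by linarith : (0 : ℝ) ≤ T + 1) hs0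
        linarith
    · rw [if_neg h3, mul_zero]
      have h6 := mul_nonneg (by linarith : (0 : ℝ) ≤ T + 1) hs0
      have h7 : (0 : ℝ) ≤ ((alg.adr ω h (toM G B (ov ρ x)) v).length : ℝ) := Nat.cast_nonneg _
      linarith
  have h3 := unif_mono h2
  rw [unif_smul, unif_add, unif_smul, unif_sum] at h3
  have hT0 : (0 : ℝ) ≤ (T : ℝ) + 1 := by positivity
  have h4 : ∑ y : Fin e → Bool, unif (evI G B ρ (fun l => alg.prog ω h l v)
        (fun x a => S y a (fun i => F y a i x)) h v T) ≤ err n m D w e h.length D0 k0 T := by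
    refine (Finset.sum_le_sum (fun y _ => h1 y)).trans (le_of_eq ?_)
    rw [Finset.sum_const, Finset.card_univ, Fintype.card_fun, Fintype.card_bool, Fintype.card_fin,
      nsmul_eq_mul]
    unfold err
    push_cast
    rfl
  have h5 := mul_le_mul_of_nonneg_left h4 hT0
  linarith

end Pool.Agent.K9h48.MG
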