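import Mathlib

/-!
# Parities and polynomials of small degree modulo an odd number

The bound of Bourgain and of Green, Roy and Straubing for the correlation of a parity of `w` bits
with a function `F` modulo the odd number `m` that is a sum of functions of at most `D` bits:
`|E (-1)^(parity) e(F / m)| ≤ (1 - (2 / (m 2 ^ m)) ^ D) ^ w`.
-/

set_option autoImplicit false
set_option linter.unusedSectionVars false
set_option linter.unnecessarySeqFocus false

namespace Pool.Agent.K9h48.MG

open Finset

/-- the bit as an element of `ZMod 2` -/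
def bt (b : Bool) : ZMod 2 := if b = true then 1 else 0

lemma bt_xor (a b : Bool) : bt (xor a b) = bt a + bt b := by
  cases a <;> cases b <;> simp [bt] ; decide

/-- the sign of an element of `ZMod 2` -/
noncomputable def sg (a : ZMod 2) : ℂ := if a = 0 then 1 else -1

lemma sg_zero : sg 0 = 1 := by simp [sg]

lemma sg_add (a b : ZMod 2) : sg (a + b) = sg a * sg b := by
  have h : ∀ a b : ZMod 2, (a + b = 0 ↔ a = b) := by decide
  have h2 : ∀ a : ZMod 2, a = 0 ∨ a = 1 := by decide
  unfold sg
  rcases h2 a with rfl | rfl <;> rcases h2 b with rfl | rfl <;> simp [h]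

lemma norm_sg (a : ZMod 2) : ‖sg a‖ = 1 := by
  unfold sg
  split_ifs <;> simp

lemma sg_sum {κ : Type} (s : Finset κ) (f : κ → ZMod 2) :
    sg (∑ k ∈ s, f k) = ∏ k ∈ s, sg (f k) := by
  classical
  induction s using Finset.induction_on with
  | empty => simp [sg_zero]
  | insert a s ha ih => rw [Finset.sum_insert ha, Finset.prod_insert ha, sg_add, ih]

variable {I : Type} [Fintype I] [DecidableEq I]

/-- the parity with the coefficients `c`, as a sign -/
noncomputable def chi (c : I → ZMod 2) (x : I → Bool) : ℂ := sg (∑ i, c i * bt (x i))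

lemma norm_chi (c : I → ZMod 2) (x : I → Bool) : ‖chi c x‖ = 1 := norm_sg _

lemma chi_add (c c' : I → ZMod 2) (x : I → Bool) : chi (c + c') x = chi c x * chi c' x := by
  unfold chi
  rw [← sg_add, ← Finset.sum_add_distrib]
  congr 1
  apply Finset.sum_congr rfl
  intro i _
  rw [Pi.add_apply, add_mul]

/-- the number of bits in the parity -/
def wt (c : I → ZMod 2) : ℕ := (univ.filter (fun i => c i ≠ 0)).card

/-- `F` is a sum of functions each of which depends on at most `D` bits -/
inductive IsDeg (m D : ℕ) : ((I → Bool) → ZMod m) → Prop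
  | junta (A : Finset I) (hA : A.card ≤ D) (f : (I → Bool) → ZMod m)
      (hf : ∀ x y : I → Bool, (∀ i ∈ A, x i = y i) → f x = f y) : IsDeg m D f
  | add (f g : (I → Bool) → ZMod m) : IsDeg m D f → IsDeg m D g →
      IsDeg m D (fun x => f x + g x)

lemma IsDeg.zero {m : ℕ} {f : (I → Bool) → ZMod m} (h : IsDeg m 0 f) : ∃ c, ∀ x, f x = c := by
  induction h with
  | junta A hA f hf =>
    refine ⟨f (fun _ => false), fun x => hf _ _ ?_⟩
    have : A = ∅ := Finset.card_eq_zero.1 (Nat.le_zero.1 hA)
    subst this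
    simp
  | add f g _ _ ihf ihg =>
    obtain ⟨a, ha⟩ := ihf
    obtain ⟨b, hb⟩ := ihg
    exact ⟨a + b, fun x => by show f x + g x = _; rw [ha, hb]⟩

lemma IsDeg.const (m D : ℕ) (c : ZMod m) : IsDeg (I := I) m D (fun _ => c) :=
  IsDeg.junta ∅ (by simp) _ (fun _ _ _ => rfl)

lemma IsDeg.mono {m D D' : ℕ} (hD : D ≤ D') {f : (I → Bool) → ZMod m} (h : IsDeg m D f) :
    IsDeg m D' f := by
  induction h with
  | junta A hA f hf => exact IsDeg.junta A (hA.trans hD) f hf
  | add f g _ _ ihf ihg => exact IsDeg.add f g ihf ihg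

lemma IsDeg.smul {m D : ℕ} (c : ZMod m) {f : (I → Bool) → ZMod m} (h : IsDeg m D f) :
    IsDeg m D (fun x => c * f x) := by
  induction h with
  | junta A hA f hf =>
    exact IsDeg.junta A hA _ (fun x y hxy => by rw [hf x y hxy])
  | add f g _ _ ihf ihg =>
    have := IsDeg.add _ _ ihf ihg
    simpa only [mul_add] using this

lemma IsDeg.sum {m D : ℕ} {κ : Type} (s : Finset κ) (F : κ → (I → Bool) → ZMod m)
    (h : ∀ k ∈ s, IsDeg m D (F k)) : IsDeg m D (fun x => ∑ k ∈ s, F k x) := by
  classical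
  induction s using Finset.induction_on with
  | empty => simpa using IsDeg.const m D 0
  | insert a s ha ih =>
    simp only [Finset.sum_insert ha]
    exact IsDeg.add _ _ (h a (Finset.mem_insert_self _ _))
      (ih (fun k hk => h k (Finset.mem_insert_of_mem hk)))

/-! ### the step of the induction -/

/-- the coordinate `i` of the tuple is constant -/
def Cst {m : ℕ} (X : I → Fin m → Bool) (i : I) : Prop := ∀ j j', X i j = X i j'

instance {m : ℕ} (X : I → Fin m → Bool) (i : I) : Decidable (Cst X i) := by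
  unfold Cst; infer_instance

/-- the `j`-th point of the tuple, flipped at the constant coordinates according to `z` -/
def pt {m : ℕ} (X : I → Fin m → Bool) (z : I → Bool) (j : Fin m) : I → Bool :=
  fun i => if Cst X i then xor (X i j) (z i) else X i j

/-- the flipped tuple -/
def flip {m : ℕ} (z : I → Bool) (X : I → Fin m → Bool) : I → Fin m → Bool :=
  fun i j => pt X z j i

lemma cst_flip {m : ℕ} (z : I → Bool) (X : I → Fin m → Bool) (i : I) :
    Cst (flip z X) i ↔ Cst X i := by
  unfold Cst flip pt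
  by_cases h : Cst X i
  · simp only [h, if_true]
    constructor
    · intro h2 j j'
      exact h j j'
    · intro h2 j j'
      rw [h2 j j']
  · simp only [h, if_false]

lemma flip_flip {m : ℕ} (z : I → Bool) (X : I → Fin m → Bool) : flip z (flip z X) = X := by
  funext i j
  show (if Cst (flip z X) i then xor (flip z X i j) (z i) else flip z X i j) = X i j
  by_cases h : Cst X i
  · rw [if_pos ((cst_flip z X i).2 h)]
    unfold flip pt
    rw [if_pos h, Bool.xor_assoc, Bool.xor_self, Bool.xor_false]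
  · rw [if_neg (fun h2 => h ((cst_flip z X i).1 h2))]
    unfold flip pt
    rw [if_neg h]

lemma sum_flip {m : ℕ} (z : I → Bool) (H : (I → Fin m → Bool) → ℂ) :
    ∑ X, H (flip z X) = ∑ X, H X := by
  refine Fintype.sum_bijective (flip z) ?_ _ _ (fun _ => rfl)
  exact Function.Involutive.bijective (flip_flip z)

lemma IsDeg.step {m D : ℕ} {F : (I → Bool) → ZMod m} (h : IsDeg m (D + 1) F)
    (X : I → Fin m → Bool) : IsDeg m D (fun z => ∑ j : Fin m, F (pt X z j)) := by
  induction h with
  | junta A hA f hf =>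
    by_cases hc : ∀ i ∈ A, Cst X i
    · refine IsDeg.junta ∅ (by simp) _ ?_
      have key : ∀ z : I → Bool, ∑ j : Fin m, f (pt X z j) = 0 := by
        intro z
        rcases Nat.eq_zero_or_pos m with hm | hm
        · subst hm
          simp
        · have h1 : ∀ j : Fin m, f (pt X z j) = f (pt X z ⟨0, hm⟩) := by
            intro j
            apply hf
            intro i hi
            unfold pt
            rw [if_pos (hc i hi), if_pos (hc i hi), hc i hi j ⟨0, hm⟩]
          rw [Finset.sum_congr rfl (fun j _ => h1 j), Finset.sum_const, Finset.card_univ,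
            Fintype.card_fin, nsmul_eq_mul, ZMod.natCast_self, zero_mul]
      intro x y _
      rw [key, key]
    · push Not at hc
      obtain ⟨i0, hi0, hn⟩ := hc
      refine IsDeg.junta (A.filter (fun i => Cst X i)) ?_ _ ?_
      · have : A.filter (fun i => Cst X i) ⊂ A := by
          rw [Finset.ssubset_iff_subset_ne]
          refine ⟨Finset.filter_subset _ _, fun he => ?_⟩
          rw [← he] at hi0
          exact hn (Finset.mem_filter.1 hi0).2
        have := Finset.card_lt_card this
        omega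
      · intro x y hxy
        apply Finset.sum_congr rfl
        intro j _
        apply hf
        intro i hi
        unfold pt
        by_cases h2 : Cst X i
        · rw [if_pos h2, if_pos h2, hxy i (Finset.mem_filter.2 ⟨hi, h2⟩)]
        · rw [if_neg h2, if_neg h2]
  | add f g _ _ ihf ihg =>
    simp only [Finset.sum_add_distrib]
    exact IsDeg.add _ _ ihf ihg

/-- the coefficients at the constant coordinates -/
def cutc {m : ℕ} (X : I → Fin m → Bool) (c : I → ZMod 2) : I → ZMod 2 :=
  fun i => if Cst X i then c i else 0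

lemma prod_chi {m : ℕ} (hm : Odd m) (c : I → ZMod 2) (X : I → Fin m → Bool) (z : I → Bool) :
    ∏ j : Fin m, chi c (pt X z j) =
      (∏ j : Fin m, chi c (fun i => X i j)) * chi (cutc X c) z := by
  unfold chi
  rw [← sg_sum, ← sg_sum, ← sg_add]
  congr 1
  rw [Finset.sum_comm, Finset.sum_comm (s := (univ : Finset (Fin m))), ← Finset.sum_add_distrib]
  apply Finset.sum_congr rfl
  intro i _
  have h2 : ((m : ℕ) : ZMod 2) = 1 := by
    rw [ZMod.natCast_eq_one_iff_odd] <;> exact hm
  unfold pt cutc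
  by_cases h : Cst X i
  · simp only [h, if_true, bt_xor, mul_add, Finset.sum_add_distrib]
    congr 1
    rw [Finset.sum_const, Finset.card_univ, Fintype.card_fin, nsmul_eq_mul, h2, one_mul]
  · simp only [h, if_false, zero_mul, add_zero]


/-! ### the bound -/

lemma psi_sum {m : ℕ} (ψ : AddChar (ZMod m) ℂ) {κ : Type} (s : Finset κ) (f : κ → ZMod m) :
    ψ (∑ k ∈ s, f k) = ∏ k ∈ s, ψ (f k) := by
  classical
  induction s using Finset.induction_on with
  | empty => simp
  | insert a s ha ih => rw [Finset.sum_insert ha, Finset.prod_insert ha, AddChar.map_add_eq_mul, ih]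

lemma sum_chi (c : I → ZMod 2) (h : wt c ≠ 0) : ∑ x : I → Bool, chi c x = 0 := by
  classical
  have h1 : ∀ x : I → Bool, chi c x = ∏ i, sg (c i * bt (x i)) := fun x => sg_sum _ _
  simp only [h1]
  have h2 := Finset.prod_univ_sum (fun _ : I => (univ : Finset Bool))
    (fun i b => sg (c i * bt b))
  rw [Fintype.piFinset_univ] at h2
  rw [← h2]
  obtain ⟨i, hi⟩ := Finset.card_pos.1 (Nat.pos_of_ne_zero h)
  refine Finset.prod_eq_zero (Finset.mem_univ i) ?_
  have hi' : c i ≠ 0 := (Finset.mem_filter.1 hi).2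
  have h01 : ∀ a : ZMod 2, a ≠ 0 → a = 1 := by decide
  rw [h01 _ hi']
  simp [bt, sg]

lemma cst_count {m : ℕ} (hm : 1 ≤ m) :
    2 ≤ (univ.filter (fun t : Fin m → Bool => ∀ j j', t j = t j')).card := by
  have h : ({(fun _ => true), (fun _ => false)} : Finset (Fin m → Bool)) ⊆
      univ.filter (fun t : Fin m → Bool => ∀ j j', t j = t j') := by
    intro t ht
    rw [Finset.mem_insert, Finset.mem_singleton] at ht
    rw [Finset.mem_filter]
    refine ⟨Finset.mem_univ _, ?_⟩
    rcases ht with rfl | rfl <;> simp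
  refine le_trans (le_of_eq ?_) (Finset.card_le_card h)
  rw [Finset.card_pair]
  intro h2
  have := congrFun h2 ⟨0, hm⟩
  simp at this

lemma wt_cutc {m : ℕ} (X : I → Fin m → Bool) (c : I → ZMod 2) (μ : ℝ) :
    μ ^ wt (cutc X c) = ∏ i, (if c i ≠ 0 ∧ (∀ j j', X i j = X i j') then μ else 1) := by
  classical
  rw [Finset.prod_ite, Finset.prod_const, Finset.prod_const_one, mul_one]
  congr 1
  unfold wt
  congr 1
  apply Finset.filter_congr
  intro i _
  show (if Cst X i then c i else 0) ≠ 0 ↔ (c i ≠ 0 ∧ Cst X i)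
  by_cases h : Cst X i
  · rw [if_pos h]
    exact ⟨fun h2 => ⟨h2, h⟩, fun h2 => h2.1⟩
  · rw [if_neg h]
    exact ⟨fun h2 => absurd rfl h2, fun h2 => absurd h2.2 h⟩

lemma sum_cutc {m : ℕ} (hm : 1 ≤ m) (c : I → ZMod 2) {μ : ℝ} (h0 : 0 ≤ μ) (h1 : μ ≤ 1) :
    ∑ X : I → Fin m → Bool, μ ^ wt (cutc X c) ≤
      (2 ^ m) ^ Fintype.card I * (1 - 2 / 2 ^ m * (1 - μ)) ^ wt c := by
  classical
  simp only [wt_cutc]
  have h2 := Finset.prod_univ_sum (fun _ : I => (univ : Finset (Fin m → Bool)))
    (fun i t => (if c i ≠ 0 ∧ (∀ j j', t j = t j') then μ else 1))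
  rw [Fintype.piFinset_univ] at h2
  rw [← h2]
  have h3 : (2 ^ m : ℝ) ^ Fintype.card I * (1 - 2 / 2 ^ m * (1 - μ)) ^ wt c =
      ∏ i, ((2 ^ m : ℝ) * (if c i ≠ 0 then (1 - 2 / 2 ^ m * (1 - μ)) else 1)) := by
    rw [Finset.prod_mul_distrib, Finset.prod_const, Finset.card_univ, Finset.prod_ite,
      Finset.prod_const, Finset.prod_const_one, mul_one]
    rfl
  rw [h3]
  apply Finset.prod_le_prod
  · intro i _
    apply Finset.sum_nonneg
    intro t _
    split_ifs
    · exact h0
    · norm_num
  · intro i _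
    by_cases hi : c i ≠ 0
    · simp only [hi, ne_eq, not_false_eq_true, true_and, if_true]
      have h4 : ∀ t : Fin m → Bool, (if (∀ j j', t j = t j') then μ else (1 : ℝ)) =
          1 - (1 - μ) * (if (∀ j j', t j = t j') then (1 : ℝ) else 0) := by
        intro t
        split_ifs <;> ring
      simp only [h4]
      rw [Finset.sum_sub_distrib, ← Finset.mul_sum, Finset.sum_boole, Finset.sum_const,
        Finset.card_univ, Fintype.card_fun, Fintype.card_bool, Fintype.card_fin, nsmul_eq_mul,
        mul_one]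
      have h5 : (2 : ℝ) ≤ ((univ.filter (fun t : Fin m → Bool => ∀ j j', t j = t j')).card : ℝ) := by
        exact_mod_cast cst_count hm
      have h6 : (2 ^ m : ℝ) * (1 - 2 / 2 ^ m * (1 - μ)) = 2 ^ m - (1 - μ) * 2 := by
        field_simp
      rw [h6]
      push_cast
      nlinarith
    · simp only [hi, false_and, if_false]
      simp

lemma theta_le {m : ℕ} (hm : 1 ≤ m) : 0 ≤ (2 / (m * 2 ^ m : ℝ)) ∧ (2 / (m * 2 ^ m : ℝ)) ≤ 1 := by
  have h1 : (1 : ℝ) ≤ m := by exact_mod_cast hm
  have h2 : (2 : ℝ) ≤ 2 ^ m := by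
    calc (2 : ℝ) = 2 ^ 1 := (pow_one _).symm
      _ ≤ 2 ^ m := pow_le_pow_right₀ (by norm_num) hm
  constructor
  · positivity
  · rw [div_le_one (by positivity)]
    nlinarith

/-- **parities and polynomials of small degree modulo an odd number** -/
theorem corr {m : ℕ} [NeZero m] (hm : Odd m) (ψ : AddChar (ZMod m) ℂ) :
    ∀ (D : ℕ) (F : (I → Bool) → ZMod m), IsDeg m D F → ∀ c : I → ZMod 2,
      ‖∑ x, chi c x * ψ (F x)‖ ≤
        2 ^ Fintype.card I * (1 - (2 / (m * 2 ^ m : ℝ)) ^ D) ^ wt c := by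
  classical
  have hm1 : 1 ≤ m := hm.pos
  have hm1' : (1 : ℝ) ≤ m := by exact_mod_cast hm1
  obtain ⟨ht0, ht1⟩ := theta_le hm1
  set θ : ℝ := 2 / (m * 2 ^ m : ℝ) with hθ
  have hnψ : ∀ a, ‖ψ a‖ = 1 := fun a => AddChar.norm_apply ψ a
  intro D
  induction D with
  | zero =>
    intro F hF c
    obtain ⟨a, ha⟩ := hF.zero
    simp only [ha]
    rw [← Finset.sum_mul, norm_mul, hnψ, mul_one]
    by_cases hw : wt c = 0
    · rw [hw, pow_zero, mul_one]
      refine (norm_sum_le _ _).trans ?_
      simp only [norm_chi]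
      rw [Finset.sum_const, Finset.card_univ, Fintype.card_fun, Fintype.card_bool, nsmul_eq_mul,
        mul_one]
      push_cast
      exact le_refl _
    · rw [sum_chi c hw, norm_zero]
      simp
  | succ D ih =>
    intro F hF c
    set N := Fintype.card I with hN
    set μ : ℝ := 1 - θ ^ D with hμ
    have hμ0 : 0 ≤ μ := by
      have : θ ^ D ≤ 1 := pow_le_one₀ ht0 ht1
      linarith
    have hμ1 : μ ≤ 1 := by
      have : 0 ≤ θ ^ D := pow_nonneg ht0 D
      linarith
    set g : (I → Bool) → ℂ := fun x => chi c x * ψ (F x) with hg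
    set S : ℂ := ∑ x, g x with hS
    -- the power
    have h1 : S ^ m = ∑ X : I → Fin m → Bool, ∏ j : Fin m, g (fun i => X i j) := by
      rw [hS, Fintype.sum_pow]
      exact Fintype.sum_equiv (Equiv.piComm _) _ _ (fun p => rfl)
    have h2 : (2 : ℂ) ^ N * S ^ m =
        ∑ X : I → Fin m → Bool, ∑ z : I → Bool, ∏ j : Fin m, g (pt X z j) := by
      rw [Finset.sum_comm]
      have h3 : ∀ z : I → Bool, ∑ X : I → Fin m → Bool, ∏ j : Fin m, g (pt X z j) = S ^ m := by
        intro z
        rw [h1]
        exact sum_flip z (fun X => ∏ j : Fin m, g (fun i => X i j))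
      simp only [h3]
      rw [Finset.sum_const, Finset.card_univ, Fintype.card_fun, Fintype.card_bool, nsmul_eq_mul]
      push_cast
      rfl
    have h4 : ∀ X : I → Fin m → Bool, ‖∑ z : I → Bool, ∏ j : Fin m, g (pt X z j)‖ ≤
        2 ^ N * μ ^ wt (cutc X c) := by
      intro X
      have h5 : ∀ z : I → Bool, ∏ j : Fin m, g (pt X z j) =
          (∏ j : Fin m, chi c (fun i => X i j)) *
            (chi (cutc X c) z * ψ (∑ j : Fin m, F (pt X z j))) := by
        intro z
        rw [hg]
        simp only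
        rw [Finset.prod_mul_distrib, prod_chi hm, psi_sum, mul_assoc]
      simp only [h5]
      rw [← Finset.mul_sum, norm_mul, norm_prod]
      simp only [norm_chi]
      rw [Finset.prod_const_one, one_mul]
      exact ih _ (hF.step X) (cutc X c)
    have h6 : (2 : ℝ) ^ N * ‖S‖ ^ m ≤ 2 ^ N * ((2 ^ m) ^ N * (1 - 2 / 2 ^ m * (1 - μ)) ^ wt c) := by
      calc (2 : ℝ) ^ N * ‖S‖ ^ m = ‖(2 : ℂ) ^ N * S ^ m‖ := by
            rw [norm_mul, norm_pow, norm_pow]
            simp
        _ ≤ ∑ X : I → Fin m → Bool, 2 ^ N * μ ^ wt (cutc X c) := by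
            rw [h2]
            exact (norm_sum_le _ _).trans (Finset.sum_le_sum (fun X _ => h4 X))
        _ = 2 ^ N * ∑ X : I → Fin m → Bool, μ ^ wt (cutc X c) := by rw [Finset.mul_sum]
        _ ≤ _ := mul_le_mul_of_nonneg_left (sum_cutc hm1 c hμ0 hμ1) (by positivity)
    have h7 : ‖S‖ ^ m ≤ (2 ^ m) ^ N * (1 - 2 / 2 ^ m * (1 - μ)) ^ wt c :=
      le_of_mul_le_mul_left h6 (by positivity)
    -- Bernoulli
    set μ' : ℝ := 1 - θ ^ (D + 1) with hμ'
    have hμ'0 : 0 ≤ μ' := by
      have : θ ^ (D + 1) ≤ 1 := pow_le_one₀ ht0 ht1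
      linarith
    have h8 : 1 - 2 / 2 ^ m * (1 - μ) ≤ μ' ^ m := by
      have hb := one_add_mul_le_pow (a := -θ ^ (D + 1)) (by
        have : θ ^ (D + 1) ≤ 1 := pow_le_one₀ ht0 ht1
        linarith) m
      have h9 : 1 + (m : ℝ) * -θ ^ (D + 1) = 1 - 2 / 2 ^ m * (1 - μ) := by
        rw [hμ, pow_succ]
        have : (m : ℝ) * θ = 2 / 2 ^ m := by
          rw [hθ]
          field_simp
        rw [← this]
        ring
      rw [h9] at hb
      refine hb.trans (le_of_eq ?_)
      rw [hμ']
      ring
    have h10 : 0 ≤ 1 - 2 / 2 ^ m * (1 - μ) := by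
      have h11 : (2 : ℝ) ≤ 2 ^ m := by
        calc (2 : ℝ) = 2 ^ 1 := (pow_one _).symm
          _ ≤ 2 ^ m := pow_le_pow_right₀ (by norm_num) hm1
      have h12 : (2 : ℝ) / 2 ^ m ≤ 1 := by
        rw [div_le_one (by positivity)]
        exact h11
      have h13 : (0 : ℝ) ≤ 2 / 2 ^ m := by positivity
      nlinarith
    have h14 : ‖S‖ ^ m ≤ (2 ^ N * μ' ^ wt c) ^ m := by
      refine h7.trans ?_
      rw [mul_pow, ← pow_mul, ← pow_mul, ← pow_mul, mul_comm m N, mul_comm (wt c) m, pow_mul μ']
      apply mul_le_mul_of_nonneg_left _ (by positivity)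
      exact pow_le_pow_left₀ h10 h8 _
    exact le_of_pow_le_pow_left₀ (by omega) (by positivity) h14

end Pool.Agent.K9h48.MG
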