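import Pool.Agent.K9h48.MG.Final

/-!
# The two lower bounds
-/

set_option autoImplicit false
set_option linter.unusedSectionVars false

namespace Pool.Agent.K9h48.MG

open Finset H568R2
open Pool.Agent.H699R2.OMV (Prog Vec Mat IsProb before avg)

variable {n : ℕ} {Ω A W : Type}

lemma right_of_solves [Fintype Ω] {alg : Alg n Ω A W} {μ : Ω → ℝ} {γ : ℝ}
    (hs : alg.Solves μ γ ∨ alg.Right μ γ) : alg.Right μ γ := by
  rcases hs with hs | hs
  · intro q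
    unfold Pool.Agent.H699R2.OMV.avg
    have hc : (0 : ℝ) < (Fintype.card (Mat n) : ℝ) * (Fintype.card (Fin n → Vec n) : ℝ) := by
      have h1 : (0 : ℝ) < (Fintype.card (Mat n) : ℝ) := by exact_mod_cast Fintype.card_pos
      have h2 : (0 : ℝ) < (Fintype.card (Fin n → Vec n) : ℝ) := by
        exact_mod_cast Fintype.card_pos
      positivity
    rw [le_div_iff₀ hc]
    calc γ * ((Fintype.card (Mat n) : ℝ) * (Fintype.card (Fin n → Vec n) : ℝ)) =
          ∑ _M : Mat n, ∑ _vs : Fin n → Vec n, γ := by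
          simp only [Finset.sum_const, Finset.card_univ, nsmul_eq_mul]
          ring
      _ ≤ _ := Finset.sum_le_sum (fun M _ => Finset.sum_le_sum (fun vs _ => hs M vs q))
  · exact hs

/-- memory computed by polynomials of degree `D` modulo the odd number `m` -/
theorem poly_bound [Fintype Ω] (m : ℕ) (hm : Odd m) (D w e : ℕ) (hw : 1 ≤ w)
    (hn : 8192 * (m * 2 ^ (m - 1)) ^ D ≤ n) (he : 4 * e ≤ n) (alg : Alg n Ω A W) (μ : Ω → ℝ)
    (hμ : IsProb μ) (γ : ℝ) (hγ : 1 / (2 : ℝ) ^ (n / 16) ≤ γ) (hP : alg.PolyMem m D w e)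
    (hs : alg.Solves μ γ ∨ alg.Right μ γ) :
    γ * (n : ℝ) ^ 3 ≤ 2 ^ 30 * (m : ℝ) * ((m * 2 ^ (m - 1)) ^ D) ^ 2 * (w * alg.cost μ) := by
  classical
  have hR := right_of_solves hs
  obtain ⟨K, hK⟩ : ∃ K, K = (m * 2 ^ (m - 1)) ^ D := ⟨_, rfl⟩
  have hK' : (((m : ℝ) * 2 ^ (m - 1)) ^ D) = (K : ℝ) := by
    rw [hK]
    push_cast
    rfl
  have hK1 : 1 ≤ K := by
    rw [hK]
    exact Nat.one_le_iff_ne_zero.2 (pow_ne_zero _ (Nat.mul_ne_zero (by
      rintro rfl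
      exact absurd hm (by decide)) (by positivity)))
  rw [← hK] at hn
  have hn1 : 8192 ≤ n := le_trans (by omega) hn
  have hfloor : ⌊(1 : ℝ) * n / 64⌋₊ = n / 64 := by
    rw [one_mul]
    exact_mod_cast Nat.floor_div_eq_div (K := ℝ) n 64
  have h := final_params hm alg μ hμ hR D w e hw hK (p := 1) (δ := 0) (by norm_num) le_rfl le_rfl
    (by
      rw [one_mul]
      exact_mod_cast hn) (n / 64) hfloor.symm (by
      intro ω h
      obtain ⟨G, B, f, hf⟩ := hP ω h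
      refine ⟨G, B, f, ?_⟩
      have h1 : ∀ ρ : Restr (Fin n × Fin n),
          (if ¬ Cells alg ω h G B f m D w ρ then (1 : ℝ) else 0) = 0 := by
        intro ρ
        rw [if_neg (not_not.2 (cells_poly ω h G B f hf ρ))]
      simp only [h1]
      exact le_of_eq (Ex_const (wq_sum 1) 0)) (by
      have t1 : 2 * 2 ^ e / 2 ^ (10 * (n / 16)) ≤ (1 : ℝ) / 2 ^ (n / 16 + 2) := by
        rw [div_le_div_iff₀ (by positivity) (by positivity), one_mul, ← pow_succ', ← pow_add]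
        exact pow_le_pow_right₀ (by norm_num) (by omega)
      have t2 : 2 * (n : ℝ) / 2 ^ (9 * (n / 64)) ≤ (1 : ℝ) / 2 ^ (n / 16 + 2) := by
        rw [div_le_div_iff₀ (by positivity) (by positivity), one_mul]
        have h1 : n ≤ 2 ^ (6 + n / 64) := by
          have h2 : n / 64 < 2 ^ (n / 64) := Nat.lt_two_pow_self
          rw [pow_add]
          omega
        have h3 : (n : ℝ) ≤ 2 ^ (6 + n / 64) := by exact_mod_cast h1
        calc 2 * (n : ℝ) * 2 ^ (n / 16 + 2) ≤ 2 * 2 ^ (6 + n / 64) * 2 ^ (n / 16 + 2) := by gcongr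
          _ = 2 ^ (6 + n / 64 + 1 + (n / 16 + 2)) := by rw [← pow_succ', ← pow_add]
          _ ≤ 2 ^ (9 * (n / 64)) := pow_le_pow_right₀ (by norm_num) (by omega)
      have t3 : (1 : ℝ) / 2 ^ (n / 16 + 2) + 1 / 2 ^ (n / 16 + 2) = (1 / 2 ^ (n / 16)) / 2 := by
        rw [pow_add]
        field_simp
        norm_num
      linarith)
  rw [hK']
  rw [one_pow, one_mul] at h
  linarith

/-- memory computed by gates modulo the odd number `m` on top of circuits of bounded depth -/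
theorem circ_bound (m : ℕ) (hm : Odd m) (d C : ℕ) (ε : ℝ) (hε : 0 < ε) :
    ∃ N0 : ℕ, ∀ n : ℕ, N0 ≤ n → ∀ (Ω A : Type) [Fintype Ω] [Fintype A] (w e : ℕ) (_ : 1 ≤ w)
      (alg : Alg n Ω A (Fin w → Bool)) (μ : Ω → ℝ) (_ : IsProb μ) (γ : ℝ),
      Fintype.card A * w ≤ n ^ C → 2 ^ e ≤ n ^ C → 1 / (n : ℝ) ^ C ≤ γ →
      alg.ModDepthSize m d (n ^ C) e → (alg.Solves μ γ ∨ alg.Right μ γ) →
      γ * (n : ℝ) ^ (3 - ε) ≤ w * alg.cost μ := by
  classical
  obtain ⟨ε', hε'⟩ : ∃ ε', ε' = min ε 1 := ⟨_, rfl⟩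
  have hε0 : 0 < ε' := by rw [hε']; exact lt_min hε one_pos
  have hε1 : ε' ≤ 1 := by rw [hε']; exact min_le_right _ _
  have hεε : ε' ≤ ε := by rw [hε']; exact min_le_left _ _
  obtain ⟨δ0, hδ0⟩ : ∃ δ0 : ℝ, δ0 = ε' / (4 * (d + 1)) := ⟨_, rfl⟩
  have hδpos : 0 < δ0 := by rw [hδ0]; positivity
  have hδd : δ0 * d ≤ ε' / 4 := by
    rw [hδ0, div_mul_eq_mul_div, div_le_div_iff₀ (by positivity) (by norm_num)]
    have : (0 : ℝ) ≤ d := Nat.cast_nonneg d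
    nlinarith
  obtain ⟨t, ht⟩ : ∃ t : ℕ, t = ⌈(5 * C + 2) / δ0⌉₊ := ⟨_, rfl⟩
  have ht1 : 1 ≤ t := by
    rw [ht, Nat.one_le_ceil_iff]
    positivity
  have htδ : 5 * C + 2 ≤ δ0 * (t + 1) := by
    have h1 : (5 * C + 2) / δ0 ≤ t := by rw [ht]; exact Nat.le_ceil _
    rw [div_le_iff₀ hδpos] at h1
    nlinarith
  obtain ⟨K, hK⟩ : ∃ K, K = (m * 2 ^ (m - 1)) ^ t := ⟨_, rfl⟩
  have htend : ∀ a : ℝ, 0 < a → ∀ c : ℝ, ∀ᶠ n : ℕ in Filter.atTop, c ≤ (n : ℝ) ^ a := by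
    intro a ha c
    exact ((tendsto_rpow_atTop ha).comp tendsto_natCast_atTop_atTop).eventually_ge_atTop c
  have hexp : ∀ᶠ n : ℕ in Filter.atTop, 64 * (n : ℝ) ^ (2 * C + 1) * Real.exp 16 ≤
      Real.exp ((n : ℝ) ^ (1 / 2 : ℝ) / 16) := by
    have h1 : Filter.Tendsto (fun y : ℝ => y ^ (4 * C + 2) * Real.exp (-(y / 16)))
        Filter.atTop (nhds 0) := by
      have h2 := (Real.tendsto_pow_mul_exp_neg_atTop_nhds_zero (4 * C + 2)).comp
        (Filter.tendsto_id.atTop_div_const (show (0 : ℝ) < 16 by norm_num))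
      have h3 := h2.const_mul ((16 : ℝ) ^ (4 * C + 2))
      rw [mul_zero] at h3
      refine h3.congr ?_
      intro y
      simp only [Function.comp_apply, id_eq]
      rw [← mul_assoc, ← mul_pow]
      congr 2
      ring
    have h4 := h1.comp ((tendsto_rpow_atTop (show (0 : ℝ) < 1 / 2 by norm_num)).comp
      (tendsto_natCast_atTop_atTop (R := ℝ)))
    have h5 := h4.eventually (gt_mem_nhds (show (0 : ℝ) < 1 / (64 * Real.exp 16) by positivity))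
    filter_upwards [h5] with n hn
    simp only [Function.comp_apply] at hn
    have h6 : ((n : ℝ) ^ (1 / 2 : ℝ)) ^ (4 * C + 2) = (n : ℝ) ^ (2 * C + 1) := by
      rw [← Real.rpow_natCast, ← Real.rpow_mul (Nat.cast_nonneg n), ← Real.rpow_natCast]
      congr 1
      push_cast
      ring
    rw [h6, Real.exp_neg, ← div_eq_mul_inv, div_lt_div_iff₀ (Real.exp_pos _) (by positivity)] at hn
    linarith
  have hev := (Filter.eventually_ge_atTop 16).and ((htend δ0 hδpos 3).and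
    ((htend (1 / 2) (by norm_num) (8192 * K)).and
    ((htend 2 (by norm_num) (16 * (d * (12 * t) ^ (t + 1)))).and (hexp.and
    (htend (ε' / 2) (by positivity) (2 ^ 30 * (K : ℝ) ^ 2 * m))))))
  obtain ⟨N0, hN0⟩ := Filter.eventually_atTop.1 hev
  refine ⟨N0, ?_⟩
  intro n hn Ω A _ _ w e hw alg μ hμ γ hA he hγ hMD hs
  obtain ⟨e1, e2, e3, e4, e5, e6⟩ := hN0 n hn
  have hR := right_of_solves hs
  have hn1 : (1 : ℝ) ≤ n := by
    have : 1 ≤ n := by omega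
    exact_mod_cast this
  have hn0 : (0 : ℝ) < n := by linarith
  obtain ⟨q, hq⟩ : ∃ q : ℝ, q = (n : ℝ) ^ (-δ0) := ⟨_, rfl⟩
  have hq0 : 0 ≤ q := by rw [hq]; positivity
  have hq1 : q ≤ 1 / 3 := by
    rw [hq, Real.rpow_neg hn0.le, ← one_div]
    exact one_div_le_one_div_of_le (by norm_num) e2
  have hp : q ^ d = (n : ℝ) ^ (-(δ0 * d)) := by
    rw [hq, ← Real.rpow_natCast, ← Real.rpow_mul hn0.le]
    congr 1
    ring
  have hp0 : 0 ≤ q ^ d := pow_nonneg hq0 d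
  have hp1 : q ^ d ≤ 1 := pow_le_one₀ hq0 (by linarith)
  have hpn : q ^ d * n = (n : ℝ) ^ (1 - δ0 * d) := by
    rw [hp, ← Real.rpow_add_one hn0.ne']
    congr 1
    ring
  have hpn2 : (n : ℝ) ^ (1 / 2 : ℝ) ≤ q ^ d * n := by
    rw [hpn]
    apply Real.rpow_le_rpow_of_exponent_le hn1
    linarith
  obtain ⟨D0, hD0⟩ : ∃ D0 : ℕ, D0 = ⌊q ^ d * n / 64⌋₊ := ⟨_, rfl⟩
  have hD0b : q ^ d * n / 64 < D0 + 1 := by
    rw [hD0]
    exact Nat.lt_floor_add_one _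
  have hD0n : D0 ≤ n / 64 := by
    have h1 : (D0 : ℝ) ≤ n / 64 := by
      have h2 : (D0 : ℝ) ≤ q ^ d * n / 64 := by rw [hD0]; exact Nat.floor_le (by positivity)
      have h3 : q ^ d * n ≤ n := by nlinarith
      linarith
    have h4 : D0 ≤ ⌊(n : ℝ) / 64⌋₊ := Nat.le_floor h1
    have h5 : ⌊(n : ℝ) / 64⌋₊ = n / 64 := by
      exact_mod_cast Nat.floor_div_eq_div (K := ℝ) n 64
    omega
  have hbig : 64 * (n : ℝ) ^ (2 * C + 1) ≤ 2 ^ (9 * D0) := by
    have h1 : Real.exp ((n : ℝ) ^ (1 / 2 : ℝ) / 16 - 16) ≤ 2 ^ (9 * D0) := by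
      have h2 : (2 : ℝ) ^ (9 * D0) = Real.exp ((9 * D0 : ℕ) * Real.log 2) := by
        rw [Real.exp_nat_mul, Real.exp_log (by norm_num)]
      rw [h2]
      apply Real.exp_le_exp.2
      have h3 : (0.6931471803 : ℝ) < Real.log 2 := Real.log_two_gt_d9
      have h4 : (n : ℝ) ^ (1 / 2 : ℝ) / 64 < D0 + 1 := by linarith
      push_cast
      have h5 : (0 : ℝ) ≤ D0 := Nat.cast_nonneg D0
      nlinarith
    rw [Real.exp_sub] at h1
    have h6 : 64 * (n : ℝ) ^ (2 * C + 1) ≤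
        Real.exp ((n : ℝ) ^ (1 / 2 : ℝ) / 16) / Real.exp 16 := by
      rw [le_div_iff₀ (Real.exp_pos _)]
      exact e5
    exact h6.trans h1
  have hnC : (0 : ℝ) < (n : ℝ) ^ C := by positivity
  have hm1 : 1 ≤ m := hm.pos
  -- the probability that a cell does not collapse
  obtain ⟨δ, hδ⟩ : ∃ δ : ℝ, δ = (2 ^ e * (Fintype.card A * w) * n ^ C : ℕ) *
      (d * (n ^ C : ℕ) * (12 * t * q) ^ (t + 1)) := ⟨_, rfl⟩
  have hδnn : 0 ≤ δ := by rw [hδ]; positivity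
  have hδle : δ ≤ 1 / (16 * (n : ℝ) ^ C) := by
    have h1 : ((2 ^ e * (Fintype.card A * w) * n ^ C : ℕ) : ℝ) ≤
        (n : ℝ) ^ C * (n : ℝ) ^ C * (n : ℝ) ^ C := by
      have : 2 ^ e * (Fintype.card A * w) * n ^ C ≤ n ^ C * n ^ C * n ^ C :=
        Nat.mul_le_mul_right _ (Nat.mul_le_mul he hA)
      exact_mod_cast this
    have h2 : q ^ (t + 1) ≤ 1 / ((n : ℝ) ^ (5 * C) * (n : ℝ) ^ 2) := by
      rw [hq, ← Real.rpow_natCast, ← Real.rpow_mul hn0.le, ← pow_add, ← Real.rpow_natCast,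
        one_div, ← Real.rpow_neg hn0.le]
      apply Real.rpow_le_rpow_of_exponent_le hn1
      push_cast
      linarith
    have h3 : (12 * t * q : ℝ) ^ (t + 1) ≤
        (12 * t) ^ (t + 1) * (1 / ((n : ℝ) ^ (5 * C) * (n : ℝ) ^ 2)) := by
      rw [mul_pow]
      exact mul_le_mul_of_nonneg_left h2 (by positivity)
    have h4 : (n : ℝ) ^ (2 : ℝ) = (n : ℝ) ^ 2 := by
      rw [← Real.rpow_natCast]
      norm_num
    rw [h4] at e4
    rw [hδ]
    calc ((2 ^ e * (Fintype.card A * w) * n ^ C : ℕ) : ℝ) *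
          (d * (n ^ C : ℕ) * (12 * t * q) ^ (t + 1)) ≤
          ((n : ℝ) ^ C * (n : ℝ) ^ C * (n : ℝ) ^ C) * (d * (n : ℝ) ^ C *
            ((12 * t) ^ (t + 1) * (1 / ((n : ℝ) ^ (5 * C) * (n : ℝ) ^ 2)))) := by
          push_cast
          push_cast at h1
          gcongr
      _ = (d * (12 * t) ^ (t + 1)) * (1 / ((n : ℝ) ^ C * (n : ℝ) ^ 2)) := by
          have h5 : (n : ℝ) ^ (5 * C) = (n : ℝ) ^ C * (n : ℝ) ^ C * (n : ℝ) ^ C *
              (n : ℝ) ^ C * (n : ℝ) ^ C := by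
            rw [← pow_add, ← pow_add, ← pow_add, ← pow_add]
            congr 1
            ring
          rw [h5]
          field_simp
      _ ≤ ((n : ℝ) ^ 2 / 16) * (1 / ((n : ℝ) ^ C * (n : ℝ) ^ 2)) := by
          apply mul_le_mul_of_nonneg_right _ (by positivity)
          linarith
      _ = 1 / (16 * (n : ℝ) ^ C) := by
          field_simp
  have hβ : 2 * 2 ^ e / 2 ^ (10 * (n / 16)) + 2 * n / 2 ^ (9 * D0) + δ ≤ γ / 2 := by
    have h1 : (2 * 2 ^ e / 2 ^ (10 * (n / 16)) : ℝ) ≤ 2 * (n : ℝ) ^ C / 2 ^ (9 * D0) := by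
      have h2 : ((2 : ℝ) ^ e) ≤ (n : ℝ) ^ C := by exact_mod_cast he
      have h3 : (2 : ℝ) ^ (9 * D0) ≤ 2 ^ (10 * (n / 16)) :=
        pow_le_pow_right₀ (by norm_num) (by omega)
      gcongr
    have h4 : 2 * (n : ℝ) ^ C / 2 ^ (9 * D0) ≤ 1 / (16 * (n : ℝ) ^ C) := by
      rw [div_le_div_iff₀ (by positivity) (by positivity), one_mul]
      refine le_trans ?_ hbig
      have h5 : (n : ℝ) ^ (2 * C + 1) = (n : ℝ) ^ C * (n : ℝ) ^ C * n := by
        rw [pow_succ, two_mul, pow_add]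
      rw [h5]
      have h6 : 0 < (n : ℝ) ^ C * (n : ℝ) ^ C := by positivity
      nlinarith
    have h7 : 2 * (n : ℝ) / 2 ^ (9 * D0) ≤ 1 / (16 * (n : ℝ) ^ C) := by
      rw [div_le_div_iff₀ (by positivity) (by positivity), one_mul]
      refine le_trans ?_ hbig
      have h5 : (n : ℝ) ^ (2 * C + 1) = (n : ℝ) ^ C * (n : ℝ) ^ C * n := by
        rw [pow_succ, two_mul, pow_add]
      rw [h5]
      have h6 : (1 : ℝ) ≤ (n : ℝ) ^ C := one_le_pow₀ hn1
      have h8 : (n : ℝ) ^ C * n ≤ (n : ℝ) ^ C * (n : ℝ) ^ C * n := by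
        apply mul_le_mul_of_nonneg_right _ hn0.le
        nlinarith
      nlinarith
    have h9 : 1 / (16 * (n : ℝ) ^ C) = (1 / (n : ℝ) ^ C) / 16 := by
      field_simp
    rw [h9] at h4 h7 hδle
    have h10 : (0 : ℝ) < 1 / (n : ℝ) ^ C := by positivity
    linarith
  have h := final_params hm alg μ hμ hR t w e hw hK (p := q ^ d) (δ := δ) hp0 hp1 hδnn
    (e3.trans hpn2) D0 hD0 (by
      intro ω h
      obtain ⟨G, B, f, hf⟩ := hMD ω h
      refine ⟨G, B, f, ?_⟩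
      have h1 := cells_circ (alg := alg) ω h G B f hf hq0 hq1 ht1
      rw [hδ]
      exact h1) hβ
  have hγ0 : 0 ≤ γ := le_trans (by positivity) hγ
  have hc0 : 0 ≤ (w : ℝ) * alg.cost μ := mul_nonneg (Nat.cast_nonneg w) (cost_nonneg alg μ hμ)
  have h1 : (q ^ d) ^ 2 * (n : ℝ) ^ 3 = (n : ℝ) ^ (3 - 2 * (δ0 * d)) := by
    rw [hp, ← Real.rpow_natCast, ← Real.rpow_mul hn0.le, ← Real.rpow_natCast,
      ← Real.rpow_add hn0]
    congr 1
    push_cast
    ring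
  have h2 : (n : ℝ) ^ (3 - ε' / 2) ≤ (q ^ d) ^ 2 * (n : ℝ) ^ 3 := by
    rw [h1]
    apply Real.rpow_le_rpow_of_exponent_le hn1
    linarith
  have h3 : γ * (n : ℝ) ^ (3 - ε' / 2) ≤ (n : ℝ) ^ (ε' / 2) * (w * alg.cost μ) :=
    calc γ * (n : ℝ) ^ (3 - ε' / 2) ≤ γ * ((q ^ d) ^ 2 * (n : ℝ) ^ 3) :=
          mul_le_mul_of_nonneg_left h2 hγ0
      _ ≤ 2 ^ 30 * (K : ℝ) ^ 2 * m * (w * alg.cost μ) := h
      _ ≤ (n : ℝ) ^ (ε' / 2) * (w * alg.cost μ) := mul_le_mul_of_nonneg_right e6 hc0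
  have h4 : (n : ℝ) ^ (3 - ε' / 2) = (n : ℝ) ^ (ε' / 2) * (n : ℝ) ^ (3 - ε') := by
    rw [← Real.rpow_add hn0]
    congr 1
    ring
  have h5 : γ * (n : ℝ) ^ (3 - ε') ≤ w * alg.cost μ := by
    have h6 : (0 : ℝ) < (n : ℝ) ^ (ε' / 2) := by positivity
    apply le_of_mul_le_mul_left _ h6
    calc (n : ℝ) ^ (ε' / 2) * (γ * (n : ℝ) ^ (3 - ε')) = γ * (n : ℝ) ^ (3 - ε' / 2) := by
          rw [h4]
          ring
      _ ≤ _ := h3
  refine le_trans ?_ h5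
  apply mul_le_mul_of_nonneg_left _ hγ0
  exact Real.rpow_le_rpow_of_exponent_le hn1 (by linarith)

end Pool.Agent.K9h48.MG
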