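import Pool.Agent.K9h48.MG.Cell

/-!
# The choice of the parameters
-/

set_option autoImplicit false
set_option linter.unusedSectionVars false

namespace Pool.Agent.K9h48.MG

open Finset H568R2
open Pool.Agent.H699R2.OMV (Prog Vec Mat IsProb before avg)

variable {n : ℕ} {Ω A W : Type}

lemma theta_pow {m : ℕ} (hm : 1 ≤ m) (D : ℕ) :
    (2 / (m * 2 ^ m : ℝ)) ^ D = 1 / (((m * 2 ^ (m - 1)) ^ D : ℕ) : ℝ) := by
  obtain ⟨k, rfl⟩ : ∃ k, m = k + 1 := ⟨m - 1, by omega⟩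
  push_cast
  rw [← one_div_pow]
  congr 1
  rw [pow_succ]
  field_simp

lemma cost_nonneg [Fintype Ω] (alg : Alg n Ω A W) (μ : Ω → ℝ) (hμ : IsProb μ) :
    0 ≤ alg.cost μ := by
  unfold Alg.cost Pool.Agent.H699R2.OMV.avg
  apply div_nonneg _ (by positivity)
  apply Finset.sum_nonneg
  intro M _
  apply Finset.sum_nonneg
  intro vs _
  apply Finset.sum_nonneg
  intro ω _
  exact mul_nonneg (hμ.nonneg ω) (Finset.sum_nonneg (fun q _ => Nat.cast_nonneg _))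

open Classical in
theorem final_params [Fintype Ω] {m : ℕ} (hm : Odd m) (alg : Alg n Ω A W) (μ : Ω → ℝ)
    (hμ : IsProb μ) {γ : ℝ} (hR : alg.Right μ γ) (D w e : ℕ) (hw : 1 ≤ w) {K : ℕ}
    (hK : K = (m * 2 ^ (m - 1)) ^ D) {p δ : ℝ} (h0 : 0 ≤ p) (h1 : p ≤ 1) (hδ0 : 0 ≤ δ)
    (hn : 8192 * (K : ℝ) ≤ p * n) (D0 : ℕ) (hD0 : D0 = ⌊p * n / 64⌋₊)
    (hC : ∀ (ω : Ω) (h : List (Vec n)), ∃ (G : (Mat n)ˣ) (B : Fin n → (Mat n)ˣ)
      (f : Mat n → Fin e → Bool), Ex (wq p) (fun ρ : Restr (Fin n × Fin n) =>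
        if ¬ Cells alg ω h G B f m D w ρ then (1 : ℝ) else 0) ≤ δ)
    (hβ : 2 * 2 ^ e / 2 ^ (10 * (n / 16)) + 2 * n / 2 ^ (9 * D0) + δ ≤ γ / 2) :
    γ * (p ^ 2 * n ^ 3) ≤ 2 ^ 30 * (K : ℝ) ^ 2 * m * (w * alg.cost μ) := by
  have hm1 : 1 ≤ m := hm.pos
  have : NeZero m := ⟨by omega⟩
  have hm1' : (1 : ℝ) ≤ m := by exact_mod_cast hm1
  have hw1' : (1 : ℝ) ≤ w := by exact_mod_cast hw
  have hK1 : 1 ≤ K := by
    rw [hK]
    exact Nat.one_le_iff_ne_zero.2 (by positivity)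
  have hK1' : (1 : ℝ) ≤ K := by exact_mod_cast hK1
  have hn0 : (0 : ℝ) ≤ n := Nat.cast_nonneg n
  have hpn : p * n ≤ n := by nlinarith
  have hnb : (8192 : ℝ) ≤ n := by nlinarith
  have hnb' : 8192 ≤ n := by exact_mod_cast hnb
  set κ : ℝ := (2 / (m * 2 ^ m : ℝ)) ^ D with hκ
  have hκK : κ = 1 / K := by rw [hκ, theta_pow hm1, hK]
  -- the sizes
  have hD0a : (D0 : ℝ) ≤ p * n / 64 := by
    rw [hD0]
    exact Nat.floor_le (by positivity)
  have hD0b : p * n / 64 < D0 + 1 := by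
    rw [hD0]
    exact Nat.lt_floor_add_one _
  have hD0K : 128 * K ≤ D0 := by
    rw [hD0]
    apply Nat.le_floor
    push_cast
    rw [le_div_iff₀ (by norm_num)]
    linarith
  have hD0K' : 128 * (K : ℝ) ≤ D0 := by exact_mod_cast hD0K
  have hD0c : p * n / 128 ≤ D0 := by
    have : (1 : ℝ) ≤ D0 := by linarith
    linarith
  obtain ⟨k0, hk0⟩ : ∃ k0 : ℕ, k0 = n / 16 := ⟨_, rfl⟩
  have hk16 : 16 * k0 ≤ n := by omega
  have hk32 : n ≤ 32 * k0 := by omega
  have hk16' : 16 * (k0 : ℝ) ≤ n := by exact_mod_cast hk16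
  have hk32' : (n : ℝ) ≤ 32 * k0 := by exact_mod_cast hk32
  have hk0pos : (0 : ℝ) < k0 := by linarith
  obtain ⟨Q, hQ⟩ : ∃ Q : ℕ, Q = D0 / (128 * K) := ⟨_, rfl⟩
  have hQ1 : Q * (128 * K) ≤ D0 := by rw [hQ]; exact Nat.div_mul_le_self _ _
  have hQ2 : D0 < (Q + 1) * (128 * K) := by
    rw [hQ]
    have := Nat.lt_div_mul_add (a := D0) (b := 128 * K) (by positivity)
    linarith
  have hQ3 : 1 ≤ Q := by
    rw [hQ]
    exact Nat.div_pos hD0K (by positivity)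
  have hQ1' : (Q : ℝ) * (128 * K) ≤ D0 := by exact_mod_cast hQ1
  have hQ2' : (D0 : ℝ) ≤ Q * (256 * K) := by
    have h2 : D0 ≤ Q * (256 * K) := by
      have : (Q + 1) * (128 * K) ≤ (2 * Q) * (128 * K) := Nat.mul_le_mul_right _ (by omega)
      have h3 : (2 * Q) * (128 * K) = Q * (256 * K) := by ring
      omega
    exact_mod_cast h2
  have hQD : Q ≤ D0 := by
    refine le_trans ?_ hQ1
    exact Nat.le_mul_of_pos_right _ (by positivity)
  have hD0n : D0 ≤ n := by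
    have : (D0 : ℝ) ≤ n := by linarith
    exact_mod_cast this
  obtain ⟨T, hT⟩ : ∃ T : ℕ, T = D0 * k0 / (4 * w * m * K) := ⟨_, rfl⟩
  have hT1 : T * (4 * w * m * K) ≤ D0 * k0 := by rw [hT]; exact Nat.div_mul_le_self _ _
  have hT2 : D0 * k0 < (T + 1) * (4 * w * m * K) := by
    rw [hT]
    have := Nat.lt_div_mul_add (a := D0 * k0) (b := 4 * w * m * K) (by positivity)
    linarith
  have hT1' : (T : ℝ) * (4 * w * m * K) ≤ D0 * k0 := by exact_mod_cast hT1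
  have hT2' : (D0 : ℝ) * k0 ≤ (T + 1) * (4 * w * m * K) := by exact_mod_cast hT2.le
  have h2exp : ∀ j : ℕ, (2 : ℝ) ^ j ≤ Real.exp j := by
    intro j
    rw [show Real.exp (j : ℝ) = Real.exp 1 ^ j by rw [← Real.exp_nat_mul, mul_one]]
    apply pow_le_pow_left₀ (by norm_num)
    have := Real.add_one_le_exp (1 : ℝ)
    linarith
  have hexp2 : ∀ j : ℕ, Real.exp (-(j : ℝ)) ≤ 1 / 2 ^ j := by
    intro j
    rw [Real.exp_neg, ← one_div]
    exact one_div_le_one_div_of_le (by positivity) (h2exp j)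
  -- the main error term
  set x : ℝ := D0 * k0 / K with hx
  have hx0 : 0 ≤ x := by positivity
  have hE2 : 2 ^ (n * Q) * (((m : ℝ) ^ w) ^ T * (1 - κ) ^ (D0 * k0)) ≤ 1 / 2 ^ (10 * k0) := by
    have a1 : (2 : ℝ) ^ (n * Q) ≤ Real.exp (x / 4) := by
      refine (h2exp _).trans (Real.exp_le_exp.2 ?_)
      push_cast
      rw [hx, div_div, le_div_iff₀ (by positivity)]
      calc (n : ℝ) * Q * (K * 4) ≤ (32 * k0) * Q * (K * 4) := by gcongr
        _ = k0 * (Q * (128 * K)) := by ring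
        _ ≤ k0 * D0 := mul_le_mul_of_nonneg_left hQ1' hk0pos.le
        _ = D0 * k0 := by ring
    have a2 : ((m : ℝ) ^ w) ^ T ≤ Real.exp (x / 4) := by
      have b1 : (m : ℝ) ≤ Real.exp m := by
        have := Real.add_one_le_exp (m : ℝ)
        linarith
      rw [← pow_mul]
      calc (m : ℝ) ^ (w * T) ≤ (Real.exp m) ^ (w * T) := pow_le_pow_left₀ (by linarith) b1 _
        _ = Real.exp ((w * T : ℕ) * (m : ℝ)) := by rw [← Real.exp_nat_mul]
        _ ≤ Real.exp (x / 4) := by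
            apply Real.exp_le_exp.2
            push_cast
            rw [hx, div_div, le_div_iff₀ (by positivity)]
            calc (w : ℝ) * T * m * (K * 4) = T * (4 * w * m * K) := by ring
              _ ≤ D0 * k0 := hT1'
    have a3 : (1 - κ) ^ (D0 * k0) ≤ Real.exp (-x) := by
      have b1 : 1 - κ ≤ Real.exp (-κ) := by
        have := Real.add_one_le_exp (-κ)
        linarith
      have b2 : 0 ≤ 1 - κ := by
        rw [hκK, sub_nonneg, div_le_one (by linarith)]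
        exact hK1'
      calc (1 - κ) ^ (D0 * k0) ≤ (Real.exp (-κ)) ^ (D0 * k0) := pow_le_pow_left₀ b2 b1 _
        _ = Real.exp ((D0 * k0 : ℕ) * (-κ)) := by rw [← Real.exp_nat_mul]
        _ = Real.exp (-x) := by
            congr 1
            rw [hx, hκK]
            push_cast
            ring
    have b2 : 0 ≤ 1 - κ := by
      rw [hκK, sub_nonneg, div_le_one (by linarith)]
      exact hK1'
    calc 2 ^ (n * Q) * (((m : ℝ) ^ w) ^ T * (1 - κ) ^ (D0 * k0)) ≤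
          Real.exp (x / 4) * (Real.exp (x / 4) * Real.exp (-x)) := by
          gcongr
      _ = Real.exp (-(x / 2)) := by
          rw [← Real.exp_add, ← Real.exp_add]
          congr 1
          ring
      _ ≤ Real.exp (-((10 * k0 : ℕ) : ℝ)) := by
          apply Real.exp_le_exp.2
          apply neg_le_neg
          rw [hx]
          push_cast
          rw [div_div, le_div_iff₀ (by positivity)]
          nlinarith
      _ ≤ 1 / 2 ^ (10 * k0) := hexp2 _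
  have hE12 : err n m D w e Q D0 k0 T ≤ 2 * 2 ^ e / 2 ^ (10 * k0) := by
    unfold err
    rw [← hκ]
    calc 2 ^ e * (1 / 2 ^ (10 * k0) + 2 ^ (n * Q) *
          (((m : ℝ) ^ w) ^ T * (1 - κ) ^ (D0 * k0))) ≤
          2 ^ e * (1 / 2 ^ (10 * k0) + 1 / 2 ^ (10 * k0)) := by
          apply mul_le_mul_of_nonneg_left _ (by positivity)
          linarith
      _ = 2 * 2 ^ e / 2 ^ (10 * k0) := by ring
  have hE3 : (2 : ℝ) ^ (16 * D0) * (1 - p / 2) ^ n ≤ 1 / 2 ^ (9 * D0) := by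
    have a1 : (1 - p / 2) ^ n ≤ Real.exp (-(p * n / 2)) := by
      have b1 : 1 - p / 2 ≤ Real.exp (-(p / 2)) := by
        have := Real.add_one_le_exp (-(p / 2))
        linarith
      calc (1 - p / 2) ^ n ≤ (Real.exp (-(p / 2))) ^ n :=
            pow_le_pow_left₀ (by linarith) b1 _
        _ = Real.exp (-(p * n / 2)) := by
            rw [← Real.exp_nat_mul]
            congr 1
            ring
    calc (2 : ℝ) ^ (16 * D0) * (1 - p / 2) ^ n ≤
          Real.exp ((16 * D0 : ℕ) : ℝ) * Real.exp (-(p * n / 2)) := by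
          have := h2exp (16 * D0)
          have h3 : (0 : ℝ) ≤ (1 - p / 2) ^ n := pow_nonneg (by linarith) _
          gcongr
      _ = Real.exp ((16 * D0 : ℕ) - p * n / 2) := by
          rw [← Real.exp_add]
          congr 1
      _ ≤ Real.exp (-((9 * D0 : ℕ) : ℝ)) := by
          apply Real.exp_le_exp.2
          push_cast
          linarith
      _ ≤ 1 / 2 ^ (9 * D0) := hexp2 _
  have hE4 : (2 : ℝ) ^ Q / 2 ^ (10 * D0) ≤ 1 / 2 ^ (9 * D0) := by
    rw [div_le_div_iff₀ (by positivity) (by positivity), one_mul, ← pow_add]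
    exact pow_le_pow_right₀ (by norm_num) (by omega)
  have hexpl := explicit hm alg μ hμ hR D w e Q D0 k0 T (hQD.trans hD0n) hk16 h0 h1 hC
    (β := γ / 2) (by
      refine le_trans ?_ hβ
      rw [← hk0]
      have a1 : (n : ℝ) * (2 ^ (16 * D0) * (1 - p / 2) ^ n + 2 ^ Q / 2 ^ (10 * D0)) ≤
          n * (1 / 2 ^ (9 * D0) + 1 / 2 ^ (9 * D0)) :=
        mul_le_mul_of_nonneg_left (add_le_add hE3 hE4) hn0
      have a2 : (n : ℝ) * (1 / 2 ^ (9 * D0) + 1 / 2 ^ (9 * D0)) = 2 * n / 2 ^ (9 * D0) := by ring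
      linarith)
  have hγ0 : 0 ≤ γ := by
    have a1 : (0 : ℝ) ≤ 2 * 2 ^ e / 2 ^ (10 * (n / 16)) := by positivity
    have a2 : (0 : ℝ) ≤ 2 * n / 2 ^ (9 * D0) := by positivity
    linarith
  have hc0 := cost_nonneg alg μ hμ
  -- the product
  have g1 : γ * ((D0 : ℝ) ^ 2 * k0) ≤ 2048 * K ^ 2 * m * (w * alg.cost μ) := by
    have a1 : (D0 : ℝ) * (D0 * k0) ≤ (Q * (256 * K)) * ((T + 1) * (4 * w * m * K)) :=
      mul_le_mul hQ2' hT2' (by positivity) (by positivity)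
    have a2 := mul_le_mul_of_nonneg_left a1 hγ0
    have a3 := mul_le_mul_of_nonneg_left hexpl
      (show (0 : ℝ) ≤ 2048 * K ^ 2 * m * w by positivity)
    calc γ * ((D0 : ℝ) ^ 2 * k0) = γ * ((D0 : ℝ) * (D0 * k0)) := by ring
      _ ≤ γ * ((Q * (256 * K)) * ((T + 1) * (4 * w * m * K))) := a2
      _ = 2048 * K ^ 2 * m * w * (Q * ((T + 1) * (γ - γ / 2))) := by ring
      _ ≤ 2048 * K ^ 2 * m * w * alg.cost μ := a3
      _ = 2048 * K ^ 2 * m * (w * alg.cost μ) := by ring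
  have g2 : p ^ 2 * (n : ℝ) ^ 3 ≤ 2 ^ 19 * ((D0 : ℝ) ^ 2 * k0) := by
    have a1 : p * n ≤ 128 * D0 := by linarith
    have a2 : (p * n) ^ 2 ≤ (128 * D0) ^ 2 := pow_le_pow_left₀ (by positivity) a1 2
    calc p ^ 2 * (n : ℝ) ^ 3 = (p * n) ^ 2 * n := by ring
      _ ≤ (128 * (D0 : ℝ)) ^ 2 * (32 * (k0 : ℝ)) := mul_le_mul a2 hk32' hn0 (by positivity)
      _ = 2 ^ 19 * ((D0 : ℝ) ^ 2 * k0) := by ring
  calc γ * (p ^ 2 * n ^ 3) ≤ γ * (2 ^ 19 * ((D0 : ℝ) ^ 2 * k0)) :=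
        mul_le_mul_of_nonneg_left g2 hγ0
    _ = 2 ^ 19 * (γ * ((D0 : ℝ) ^ 2 * k0)) := by ring
    _ ≤ 2 ^ 19 * (2048 * K ^ 2 * m * (w * alg.cost μ)) :=
        mul_le_mul_of_nonneg_left g1 (by norm_num)
    _ = 2 ^ 30 * (K : ℝ) ^ 2 * m * (w * alg.cost μ) := by ring

end Pool.Agent.K9h48.MG
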