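import Pool.Agent.K9h48.MG.Core

/-!
# The lower bound with explicit parameters
-/

set_option autoImplicit false
set_option linter.unusedSectionVars false

namespace Pool.Agent.K9h48.MG

open Finset H568R2
open Pool.Agent.H699R2.OMV (Prog Vec Mat IsProb before avg)
open Pool.Agent.TH163.AC2 (toMat toM gm gm_eq toM_mulVec free unif unif_mono unif_const unif_add
  unif_smul unif_sum unif_nonneg unif_restr mavg mavg_eq avg_eq mavg_sum_mul sum_before few_free)

variable {n : ℕ} {Ω A W : Type}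

lemma err_nonneg (n : ℕ) {m : ℕ} (hm : 1 ≤ m) (D w e ℓ D0 k0 T : ℕ) :
    0 ≤ err n m D w e ℓ D0 k0 T := by
  obtain ⟨hθ0, hθ1⟩ := theta_le hm
  have h2 : (2 / (m * 2 ^ m : ℝ)) ^ D ≤ 1 := pow_le_one₀ hθ0 hθ1
  have h3 : 0 ≤ 1 - (2 / (m * 2 ^ m : ℝ)) ^ D := by linarith
  unfold err
  positivity

lemma err_mono (n : ℕ) {m : ℕ} (hm : 1 ≤ m) (D w e : ℕ) {ℓ Q : ℕ} (hℓ : ℓ ≤ Q) (D0 k0 T : ℕ) :
    err n m D w e ℓ D0 k0 T ≤ err n m D w e Q D0 k0 T := by
  obtain ⟨hθ0, hθ1⟩ := theta_le hm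
  have h2 : (2 / (m * 2 ^ m : ℝ)) ^ D ≤ 1 := pow_le_one₀ hθ0 hθ1
  have h3 : 0 ≤ 1 - (2 / (m * 2 ^ m : ℝ)) ^ D := by linarith
  unfold err
  apply mul_le_mul_of_nonneg_left _ (by positivity)
  apply add_le_add_right
  apply mul_le_mul_of_nonneg_right _ (by positivity)
  exact pow_le_pow_right₀ (by norm_num) (Nat.mul_le_mul_left _ hℓ)

open Classical in
lemma one_restr {m : ℕ} [NeZero m] (hm : Odd m) (alg : Alg n Ω A W) (ω : Ω)
    (h : List (Vec n)) (G : (Mat n)ˣ) (B : Fin n → (Mat n)ˣ) {e : ℕ}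
    (f : Mat n → Fin e → Bool) (D w : ℕ) (v : Vec n)
    (D0 k0 T : ℕ) (hk : 16 * k0 ≤ n) (ρ : Restr (Fin n × Fin n)) :
    (T + 1 : ℝ) * unif (fun x => if alg.ans ω h (toM G B (ov ρ x)) v =
        (toM G B (ov ρ x)).mulVec v then (1 : ℝ) else 0) ≤
      unif (fun x => ((alg.adr ω h (toM G B (ov ρ x)) v).length : ℝ)) +
      (T + 1) * err n m D w e h.length D0 k0 T +
      (T + 1) * ∑ r, (if BadV (B r) (free ρ r) h D0 v then (1 : ℝ) else 0) +
      (T + 1) * (if ¬ Cells alg ω h G B f m D w ρ then (1 : ℝ) else 0) := by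
  have hP0 : (0 : ℝ) ≤ T + 1 := by positivity
  have hU : 0 ≤ unif (fun x => ((alg.adr ω h (toM G B (ov ρ x)) v).length : ℝ)) :=
    unif_nonneg (fun x => by positivity)
  have hW : unif (fun x => if alg.ans ω h (toM G B (ov ρ x)) v =
        (toM G B (ov ρ x)).mulVec v then (1 : ℝ) else 0) ≤ 1 := by
    refine (unif_mono (G := fun _ => (1 : ℝ)) ?_).trans (le_of_eq (unif_const 1))
    intro x
    split_ifs <;> norm_num
  have hW' := mul_le_mul_of_nonneg_left hW hP0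
  have hM : 0 ≤ (T + 1 : ℝ) * err n m D w e h.length D0 k0 T :=
    mul_nonneg hP0 (err_nonneg n hm.pos D w e h.length D0 k0 T)
  have hA0 : ∀ r ∈ (univ : Finset (Fin n)),
      (0 : ℝ) ≤ (if BadV (B r) (free ρ r) h D0 v then (1 : ℝ) else 0) := by
    intro r _
    split_ifs <;> norm_num
  have hA : 0 ≤ (T + 1 : ℝ) * ∑ r, (if BadV (B r) (free ρ r) h D0 v then (1 : ℝ) else 0) :=
    mul_nonneg hP0 (Finset.sum_nonneg hA0)
  by_cases hg : Cells alg ω h G B f m D w ρ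
  · rw [if_neg (not_not.2 hg), mul_zero, add_zero]
    by_cases hb : ∃ r, BadV (B r) (free ρ r) h D0 v
    · obtain ⟨r, hr⟩ := hb
      have h1 : (1 : ℝ) ≤ ∑ r, (if BadV (B r) (free ρ r) h D0 v then (1 : ℝ) else 0) := by
        refine le_trans ?_ (Finset.single_le_sum hA0 (Finset.mem_univ r))
        rw [if_pos hr]
      have h2 := mul_le_mul_of_nonneg_left h1 hP0
      linarith
    · have hv : GoodV B ρ h D0 v := fun r hr => hb ⟨r, hr⟩
      have h1 := one_restr_good hm alg ω h G B f D w ρ v D0 k0 T hg hv hk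
      exact h1.trans (le_add_of_nonneg_right hA)
  · rw [if_pos hg, mul_one]
    linarith

open Classical in
lemma avg_restr {m : ℕ} [NeZero m] (hm : Odd m) (alg : Alg n Ω A W) (ω : Ω)
    (h : List (Vec n)) (G : (Mat n)ˣ) (B : Fin n → (Mat n)ˣ) {e : ℕ}
    (f : Mat n → Fin e → Bool) (D w : ℕ) (v : Vec n)
    (D0 k0 T : ℕ) (hk : 16 * k0 ≤ n) {p : ℝ} (h0 : 0 ≤ p) (h1 : p ≤ 1) :
    (T + 1 : ℝ) * rightE alg ω h v ≤ lenE alg ω h v +
      (T + 1) * err n m D w e h.length D0 k0 T +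
      (T + 1) * ∑ r, Ex (wq p) (fun ρ : Restr (Fin n × Fin n) =>
        if BadV (B r) (free ρ r) h D0 v then (1 : ℝ) else 0) +
      (T + 1) * Ex (wq p) (fun ρ : Restr (Fin n × Fin n) =>
        if ¬ Cells alg ω h G B f m D w ρ then (1 : ℝ) else 0) := by
  have h2 := Ex_mono (wq_nonneg h0 h1) (one_restr hm alg ω h G B f D w v D0 k0 T hk)
  rw [Ex_smul, Ex_add, Ex_add, Ex_add, Ex_const (wq_sum p), Ex_smul, Ex_smul, Ex_sum] at h2
  have h3 : Ex (wq p) (fun ρ : Restr (Fin n × Fin n) =>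
      unif (fun x => ((alg.adr ω h (toM G B (ov ρ x)) v).length : ℝ))) = lenE alg ω h v := by
    unfold lenE
    rw [mavg_eq G B]
    exact (unif_restr p (fun X => ((alg.adr ω h (toM G B X) v).length : ℝ))).symm
  have h4 : Ex (wq p) (fun ρ : Restr (Fin n × Fin n) =>
      unif (fun x => if alg.ans ω h (toM G B (ov ρ x)) v =
        (toM G B (ov ρ x)).mulVec v then (1 : ℝ) else 0)) = rightE alg ω h v := by
    unfold rightE
    rw [mavg_eq G B]
    exact (unif_restr p (fun X => if alg.ans ω h (toM G B X) v =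
        (toM G B X).mulVec v then (1 : ℝ) else 0)).symm
  rw [h3, h4] at h2
  exact h2

open Classical in
lemma avg_vec {m : ℕ} [NeZero m] (hm : Odd m) (alg : Alg n Ω A W) (ω : Ω)
    (h : List (Vec n)) (G : (Mat n)ˣ) (B : Fin n → (Mat n)ˣ) {e : ℕ}
    (f : Mat n → Fin e → Bool) (D w : ℕ)
    (D0 k0 T : ℕ) (hk : 16 * k0 ≤ n) {p : ℝ} (h0 : 0 ≤ p) (h1 : p ≤ 1) :
    ((2 : ℝ) ^ n) * (-((T + 1 : ℝ) * (err n m D w e h.length D0 k0 T +
      n * (2 ^ (16 * D0) * (1 - p / 2) ^ n + 2 ^ h.length / 2 ^ (10 * D0)) +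
      Ex (wq p) (fun ρ : Restr (Fin n × Fin n) =>
        if ¬ Cells alg ω h G B f m D w ρ then (1 : ℝ) else 0)))) ≤
      ∑ v, (lenE alg ω h v - (T + 1 : ℝ) * rightE alg ω h v) := by
  have hV : (Fintype.card (Vec n) : ℝ) = 2 ^ n := by
    rw [Fintype.card_fun, ZMod.card, Fintype.card_fin]
    push_cast
    rfl
  have hs := Finset.sum_le_sum (fun v (_ : v ∈ (univ : Finset (Vec n))) =>
    avg_restr hm alg ω h G B f D w v D0 k0 T hk h0 h1)
  have hP0 : (0 : ℝ) ≤ T + 1 := by positivity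
  rw [Finset.sum_add_distrib, Finset.sum_add_distrib, Finset.sum_add_distrib, Finset.sum_const,
    Finset.card_univ, nsmul_eq_mul, hV, Finset.sum_const, Finset.card_univ, nsmul_eq_mul,
    hV] at hs
  have e3 : ∑ v : Vec n, (T + 1 : ℝ) * ∑ r, Ex (wq p) (fun ρ : Restr (Fin n × Fin n) =>
        if BadV (B r) (free ρ r) h D0 v then (1 : ℝ) else 0) = (T + 1 : ℝ) * ∑ r, ∑ v : Vec n,
        Ex (wq p) (fun ρ : Restr (Fin n × Fin n) =>
        if BadV (B r) (free ρ r) h D0 v then (1 : ℝ) else 0) := by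
    rw [← Finset.mul_sum, Finset.sum_comm]
  rw [e3] at hs
  have hr : ∀ r : Fin n, ∑ v : Vec n, Ex (wq p) (fun ρ : Restr (Fin n × Fin n) =>
        if BadV (B r) (free ρ r) h D0 v then (1 : ℝ) else 0) ≤
      2 ^ n * (2 ^ (16 * D0) * (1 - p / 2) ^ n + 2 ^ h.length / 2 ^ (10 * D0)) := by
    intro r
    rw [← Ex_sum]
    have hpt : ∀ ρ : Restr (Fin n × Fin n),
        ∑ v : Vec n, (if BadV (B r) (free ρ r) h D0 v then (1 : ℝ) else 0) ≤
        2 ^ n * (if (free ρ r).card < 16 * D0 then (1 : ℝ) else 0) +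
        2 ^ n * (2 ^ h.length / 2 ^ (10 * D0)) := by
      intro ρ
      rw [Finset.sum_boole]
      by_cases hf : (free ρ r).card < 16 * D0
      · rw [if_pos hf, mul_one]
        have h3 : ((univ.filter (fun v : Vec n => BadV (B r) (free ρ r) h D0 v)).card : ℝ) ≤
            2 ^ n := by
          rw [← hV]
          exact_mod_cast Finset.card_le_univ _
        have h4 : (0 : ℝ) ≤ 2 ^ n * (2 ^ h.length / 2 ^ (10 * D0)) := by
          positivity
        linarith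
      · rw [if_neg hf, mul_zero, zero_add]
        have h3 := bad_count (B r) (free ρ r) h D0 (not_lt.1 hf)
        refine h3.trans (le_of_eq ?_)
        ring
    refine (Ex_mono (wq_nonneg h0 h1) hpt).trans ?_
    rw [Ex_add, Ex_smul, Ex_const (wq_sum p)]
    have h5 := few_free r h0 h1 (16 * D0)
    have h6 : (0 : ℝ) < 2 ^ n := by positivity
    have h7 := mul_le_mul_of_nonneg_left h5 h6.le
    have h8 : Ex (wq p) (fun ρ : Restr (Fin n × Fin n) =>
        if (free ρ r).card < 16 * D0 then (1 : ℝ) else 0) ≤ 2 ^ (16 * D0) * (1 - p / 2) ^ n := by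
      convert h5
    have h9 := mul_le_mul_of_nonneg_left h8 h6.le
    linarith
  have hr' := Finset.sum_le_sum (fun r (_ : r ∈ (univ : Finset (Fin n))) => hr r)
  rw [Finset.sum_const, Finset.card_univ, Fintype.card_fin, nsmul_eq_mul] at hr'
  have hr'' := mul_le_mul_of_nonneg_left hr' hP0
  rw [Finset.sum_sub_distrib]
  linarith

open Classical in
/-- **the lower bound with explicit parameters** -/
theorem explicit [Fintype Ω] {m : ℕ} [NeZero m] (hm : Odd m) (alg : Alg n Ω A W) (μ : Ω → ℝ)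
    (hμ : IsProb μ) {γ : ℝ} (hR : alg.Right μ γ) (D w e Q D0 k0 T : ℕ) (hQ : Q ≤ n)
    (hk : 16 * k0 ≤ n) {p δ β : ℝ} (h0 : 0 ≤ p) (h1 : p ≤ 1)
    (hC : ∀ (ω : Ω) (h : List (Vec n)), ∃ (G : (Mat n)ˣ) (B : Fin n → (Mat n)ˣ)
      (f : Mat n → Fin e → Bool), Ex (wq p) (fun ρ : Restr (Fin n × Fin n) =>
        if ¬ Cells alg ω h G B f m D w ρ then (1 : ℝ) else 0) ≤ δ)
    (hβ : err n m D w e Q D0 k0 T +
      n * (2 ^ (16 * D0) * (1 - p / 2) ^ n + 2 ^ Q / 2 ^ (10 * D0)) + δ ≤ β) :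
    Q * ((T + 1 : ℝ) * (γ - β)) ≤ alg.cost μ := by
  apply core alg μ hμ hR Q hQ (by positivity)
  intro ω h hh
  obtain ⟨G, B, f, hδ⟩ := hC ω h
  refine le_trans ?_ (avg_vec hm alg ω h G B f D w D0 k0 T hk h0 h1)
  apply mul_le_mul_of_nonneg_left _ (by positivity)
  apply neg_le_neg
  apply mul_le_mul_of_nonneg_left _ (by positivity)
  have h2 := err_mono n hm.pos D w e hh.le D0 k0 T
  have h3 : (2 : ℝ) ^ h.length / 2 ^ (10 * D0) ≤ 2 ^ Q / 2 ^ (10 * D0) := by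
    apply div_le_div_of_nonneg_right _ (by positivity)
    exact pow_le_pow_right₀ (by norm_num) hh.le
  have h4 : (n : ℝ) * (2 ^ (16 * D0) * (1 - p / 2) ^ n + 2 ^ h.length / 2 ^ (10 * D0)) ≤
      n * (2 ^ (16 * D0) * (1 - p / 2) ^ n + 2 ^ Q / 2 ^ (10 * D0)) := by
    apply mul_le_mul_of_nonneg_left _ (Nat.cast_nonneg n)
    linarith
  linarith

end Pool.Agent.K9h48.MG
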