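import Pool.Agent.TH163.AC2.Model

/-!
# Online matrix-vector multiplication over `ZMod 2` with memory computed modulo an odd number

The cell-probe model of the starting library `Pool/Agent/H699R2/OMV/Model.lean`, in which the programs
moreover know the earlier answers (as in `Pool/Agent/TH163/AC2/Model.lean`), with cells of any kind.
-/

set_option autoImplicit false

namespace Pool.Agent.K9h48.MG

open Pool.Agent.H699R2.OMV (Prog Vec Mat IsProb before avg)
open Pool.Agent.TH163.AC2 (coord)

/-- A randomised algorithm for online matrix-vector multiplication over `ZMod 2` in the cell-probe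
model with cell contents in `W`. `Ω` is the set of outcomes of its coins, `A` the set of addresses.
`mem ω h M` is the content of the memory when the vectors in the list `h` have been processed, and
`prog ω h y v` is the program run on the next vector `v`; here `h` is the list of the earlier
vectors and `y` the list of the earlier (correct) products. -/
structure Alg (n : ℕ) (Ω A W : Type) where
  mem : Ω → List (Vec n) → Mat n → A → W
  prog : Ω → List (Vec n) → List (Vec n) → Vec n → Prog A W (Vec n)

namespace Alg

variable {n : ℕ} {Ω A W : Type}

/-- The answer to the vector `v` after the vectors in `h`. -/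
def ans (alg : Alg n Ω A W) (ω : Ω) (h : List (Vec n)) (M : Mat n) (v : Vec n) : Vec n :=
  (alg.prog ω h (h.map M.mulVec) v).out (alg.mem ω h M)

/-- The addresses probed for the vector `v` after the vectors in `h`. -/
def adr (alg : Alg n Ω A W) (ω : Ω) (h : List (Vec n)) (M : Mat n) (v : Vec n) : List A :=
  (alg.prog ω h (h.map M.mulVec) v).addrs (alg.mem ω h M)

/-- The answer to the `q`-th vector of the stream `vs`. -/
def answer (alg : Alg n Ω A W) (ω : Ω) (M : Mat n) (vs : Fin n → Vec n) (q : Fin n) : Vec n :=
  alg.ans ω (before vs q) M (vs q)

/-- The addresses probed while the `q`-th vector of the stream `vs` is processed. -/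
def probes (alg : Alg n Ω A W) (ω : Ω) (M : Mat n) (vs : Fin n → Vec n) (q : Fin n) : List A :=
  alg.adr ω (before vs q) M (vs q)

/-- The expected total number of probes on a uniformly random input (a matrix and a stream of `n`
vectors). -/
noncomputable def cost [Fintype Ω] (alg : Alg n Ω A W) (μ : Ω → ℝ) : ℝ :=
  avg (fun M vs => ∑ ω, μ ω * ∑ q, ((alg.probes ω M vs q).length : ℝ))

/-- On every input, each single answer is right with probability at least `γ`. -/
def Solves [Fintype Ω] (alg : Alg n Ω A W) (μ : Ω → ℝ) (γ : ℝ) : Prop :=
  ∀ (M : Mat n) (vs : Fin n → Vec n) (q : Fin n), γ ≤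
    ∑ ω, μ ω * (if alg.answer ω M vs q = M.mulVec (vs q) then (1 : ℝ) else 0)

/-- On a uniformly random input (a matrix and a stream of `n` vectors), each single answer is right
with probability at least `γ`. -/
def Right [Fintype Ω] (alg : Alg n Ω A W) (μ : Ω → ℝ) (γ : ℝ) : Prop :=
  ∀ q : Fin n, γ ≤ avg (fun M vs =>
    ∑ ω, μ ω * (if alg.answer ω M vs q = M.mulVec (vs q) then (1 : ℝ) else 0))

/-- **Polynomials modulo `m`.** For given coins and earlier vectors there are coordinates (invertible
matrices `G` and `B r`, see `coord`; `G = 1`, `B r = 1` give the entries of the matrix) and `e`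
arbitrary bits `f M` of side information about the matrix such that, for each value `y` of the side
information, the content of every cell is an arbitrary function of the values of `w` polynomials
over `ZMod m` of degree at most `D` in the `n * n` bits `0`, `1` of the matrix, on all matrices with
this side information. -/
def PolyMem (alg : Alg n Ω A W) (m D w e : ℕ) : Prop :=
  ∀ (ω : Ω) (h : List (Vec n)), ∃ (G : (Mat n)ˣ) (B : Fin n → (Mat n)ˣ)
    (f : Mat n → Fin e → Bool), ∀ (a : A) (y : Fin e → Bool),
    ∃ (P : Fin w → MvPolynomial (Fin n × Fin n) (ZMod m)) (S : (Fin w → ZMod m) → W),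
      (∀ i, (P i).totalDegree ≤ D) ∧ ∀ M : Mat n, f M = y →
        alg.mem ω h M a = S (fun i =>
          MvPolynomial.eval (fun z => if coord G B M z = true then (1 : ZMod m) else 0) (P i))

/-- **Gates modulo `m` on top of circuits of bounded depth.** For given coins and earlier vectors
there are coordinates and `e` arbitrary bits `f M` of side information as in `PolyMem` such that,
for each value `y` of the side information, every bit of every cell is an arbitrary function `S`
of a sum modulo `m`, with arbitrary coefficients, of the values of `s` circuits (AND, OR of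
unbounded fan-in, NOT) with at most `s` gates and depth at most `d`, on all matrices with this side
information. -/
def ModDepthSize {w : ℕ} (alg : Alg n Ω A (Fin w → Bool)) (m d s e : ℕ) : Prop :=
  ∀ (ω : Ω) (h : List (Vec n)), ∃ (G : (Mat n)ˣ) (B : Fin n → (Mat n)ˣ)
    (f : Mat n → Fin e → Bool), ∀ (a : A) (i : Fin w) (y : Fin e → Bool),
    ∃ (C : Fin s → DomAC0.Circuit (Fin n × Fin n)) (c : Fin s → ZMod m) (S : ZMod m → Bool),
      (∀ j, (C j).size ≤ s ∧ (C j).depth ≤ d) ∧ ∀ M : Mat n, f M = y →
        alg.mem ω h M a i = S (∑ j, if (C j).eval (coord G B M) = true then c j else 0)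

end Alg

end Pool.Agent.K9h48.MG
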