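import Pool.Agent.K9h48.MG.Corr
import Pool.Agent.H699R2.OMV.Model

/-!
# Programs which read functions of small degree modulo an odd number
-/

set_option autoImplicit false
set_option linter.unusedSectionVars false

namespace Pool.Agent.K9h48.MG

open Finset
open Pool.Agent.H699R2.OMV (Prog)

variable {I : Type} [Fintype I] [DecidableEq I] {m : ℕ}

/-- `u` is nearly orthogonal to all products of a parity of the set `𝒮` and a phase of degree `D` -/
def Sm (ψ : AddChar (ZMod m) ℂ) (D : ℕ) (𝒮 : Set (I → ZMod 2)) (b : ℝ)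
    (u : (I → Bool) → ℂ) : Prop :=
  ∀ c ∈ 𝒮, ∀ F : (I → Bool) → ZMod m, IsDeg m D F → ‖∑ x, u x * (chi c x * ψ (F x))‖ ≤ b

lemma Sm.one [NeZero m] (hm : Odd m) (ψ : AddChar (ZMod m) ℂ) (D : ℕ) (𝒮 : Set (I → ZMod 2))
    (k : ℕ) (h : ∀ c ∈ 𝒮, k ≤ wt c) :
    Sm ψ D 𝒮 (2 ^ Fintype.card I * (1 - (2 / (m * 2 ^ m : ℝ)) ^ D) ^ k) (fun _ => 1) := by
  intro c hc F hF
  simp only [one_mul]
  refine (corr hm ψ D F hF c).trans ?_
  apply mul_le_mul_of_nonneg_left _ (by positivity)
  obtain ⟨h0, h1⟩ := theta_le hm.pos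
  have h2 : (2 / (m * 2 ^ m : ℝ)) ^ D ≤ 1 := pow_le_one₀ h0 h1
  have h3 : 0 ≤ (2 / (m * 2 ^ m : ℝ)) ^ D := pow_nonneg h0 D
  exact pow_le_pow_of_le_one (by linarith) (by linarith) (h c hc)

/-- a condition on the value of a function of small degree -/
lemma Sm.cell1 [NeZero m] {ψ : AddChar (ZMod m) ℂ} (hψ : ψ.IsPrimitive) {D : ℕ}
    {𝒮 : Set (I → ZMod 2)} {b : ℝ} {u : (I → Bool) → ℂ} (h : Sm ψ D 𝒮 b u)
    (F0 : (I → Bool) → ZMod m) (hF0 : IsDeg m D F0) (a : ZMod m) :
    Sm ψ D 𝒮 b (fun x => u x * (if F0 x = a then 1 else 0)) := by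
  classical
  intro c hc F hF
  have hm0 : (0 : ℝ) < m := by exact_mod_cast NeZero.pos m
  have hm0' : (m : ℂ) ≠ 0 := by exact_mod_cast NeZero.ne m
  have h1 : ∀ x : I → Bool, (if F0 x = a then (1 : ℂ) else 0) =
      (1 / m) * ∑ t : ZMod m, ψ (t * (F0 x - a)) := by
    intro x
    rw [AddChar.sum_mulShift _ hψ]
    by_cases h2 : F0 x = a
    · rw [if_pos h2, if_pos (by rw [h2, sub_self]), ZMod.card]
      field_simp
    · rw [if_neg h2, if_neg (fun h3 => h2 (sub_eq_zero.1 h3))]
      simp
  have h3 : ∑ x, u x * (if F0 x = a then (1 : ℂ) else 0) * (chi c x * ψ (F x)) =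
      (1 / m) * ∑ t : ZMod m, ψ (-(t * a)) * ∑ x, u x * (chi c x * ψ (F x + t * F0 x)) := by
    simp only [h1, Finset.mul_sum, Finset.sum_mul]
    rw [Finset.sum_comm]
    apply Finset.sum_congr rfl
    intro t _
    apply Finset.sum_congr rfl
    intro x _
    have h4 : ψ (t * (F0 x - a)) = ψ (t * F0 x) * ψ (-(t * a)) := by
      rw [← AddChar.map_add_eq_mul]
      congr 1
      ring
    rw [h4, AddChar.map_add_eq_mul]
    ring
  rw [h3, norm_mul]
  have h5 : ‖∑ t : ZMod m, ψ (-(t * a)) * ∑ x, u x * (chi c x * ψ (F x + t * F0 x))‖ ≤ m * b := by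
    refine (norm_sum_le _ _).trans ?_
    calc ∑ t : ZMod m, ‖ψ (-(t * a)) * ∑ x, u x * (chi c x * ψ (F x + t * F0 x))‖ ≤
          ∑ _t : ZMod m, b := by
          apply Finset.sum_le_sum
          intro t _
          rw [norm_mul, AddChar.norm_apply, one_mul]
          exact h c hc _ (IsDeg.add _ _ hF (hF0.smul t))
      _ = m * b := by
          rw [Finset.sum_const, Finset.card_univ, ZMod.card, nsmul_eq_mul]
  have h6 : ‖(1 / m : ℂ)‖ = 1 / m := by simp
  rw [h6]
  calc (1 / m : ℝ) * _ ≤ (1 / m : ℝ) * (m * b) := mul_le_mul_of_nonneg_left h5 (by positivity)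
    _ = b := by field_simp

lemma Sm.cell [NeZero m] {ψ : AddChar (ZMod m) ℂ} (hψ : ψ.IsPrimitive) {D : ℕ}
    {𝒮 : Set (I → ZMod 2)} {b : ℝ} {κ : Type} [DecidableEq κ] (s : Finset κ)
    (F0 : κ → (I → Bool) → ZMod m) (hF0 : ∀ k, IsDeg m D (F0 k)) (a : κ → ZMod m) :
    ∀ {u : (I → Bool) → ℂ}, Sm ψ D 𝒮 b u →
    Sm ψ D 𝒮 b (fun x => u x * (if ∀ k ∈ s, F0 k x = a k then 1 else 0)) := by
  induction s using Finset.induction_on with
  | empty =>
    intro u h
    simpa using h
  | insert k s hk ih =>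
    intro u h
    have h1 := ih (h.cell1 hψ (F0 k) (hF0 k) (a k))
    have h2 : (fun x => u x * (if ∀ k' ∈ insert k s, F0 k' x = a k' then (1 : ℂ) else 0)) =
        fun x => u x * (if F0 k x = a k then 1 else 0) *
          (if ∀ k ∈ s, F0 k x = a k then 1 else 0) := by
      funext x
      by_cases h3 : F0 k x = a k
      · by_cases h4 : ∀ k ∈ s, F0 k x = a k
        · rw [if_pos h3, if_pos h4, if_pos]
          · ring
          · intro k' hk'
            rcases Finset.mem_insert.1 hk' with rfl | hk'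
            · exact h3
            · exact h4 k' hk'
        · rw [if_neg h4, if_neg]
          · ring
          · intro h5
            exact h4 (fun k' hk' => h5 k' (Finset.mem_insert_of_mem hk'))
      · rw [if_neg h3, if_neg]
        · ring
        · intro h5
          exact h3 (h5 k (Finset.mem_insert_self _ _))
    rw [h2]
    exact h1

/-- a condition on a parity -/
lemma Sm.lin {ψ : AddChar (ZMod m) ℂ} {D : ℕ} {𝒮 : Set (I → ZMod 2)} {b : ℝ}
    {u : (I → Bool) → ℂ} (h : Sm ψ D 𝒮 b u) (g : (I → Bool) → ZMod 2) (c0 : I → ZMod 2)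
    (t : ℂ) (ht : ‖t‖ = 1) (hg : ∀ x, sg (g x) = t * chi c0 x)
    (h𝒮 : ∀ c ∈ 𝒮, c0 + c ∈ 𝒮) (a : ZMod 2) :
    Sm ψ D 𝒮 b (fun x => u x * (if g x = a then 1 else 0)) := by
  intro c hc F hF
  have h1 : ∀ x : I → Bool, (if g x = a then (1 : ℂ) else 0) = (1 + sg a * sg (g x)) / 2 := by
    intro x
    have h01 : ∀ a : ZMod 2, a = 0 ∨ a = 1 := by decide
    rcases h01 a with rfl | rfl <;> rcases h01 (g x) with h2 | h2 <;> rw [h2] <;> simp [sg]
  have h3 : ∑ x, u x * (if g x = a then (1 : ℂ) else 0) * (chi c x * ψ (F x)) =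
      (∑ x, u x * (chi c x * ψ (F x)) + sg a * t *
        ∑ x, u x * (chi (c0 + c) x * ψ (F x))) / 2 := by
    rw [Finset.mul_sum, ← Finset.sum_add_distrib, Finset.sum_div]
    apply Finset.sum_congr rfl
    intro x _
    rw [h1, hg, chi_add]
    ring
  rw [h3, norm_div, Complex.norm_ofNat, div_le_iff₀ (by norm_num)]
  have h4 := h c hc F hF
  have h5 := h _ (h𝒮 c hc) F hF
  refine (norm_add_le _ _).trans ?_
  rw [norm_mul, norm_mul, norm_sg, ht, one_mul, one_mul]
  linarith

/-- **the program lemma** -/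
theorem prog_le [NeZero m] {ψ : AddChar (ZMod m) ℂ} (hψ : ψ.IsPrimitive) {D : ℕ}
    {𝒮 : Set (I → ZMod 2)} {b : ℝ} (hb : 0 ≤ b) {A W O : Type} {w : ℕ}
    (F0 : A → Fin w → (I → Bool) → ZMod m) (hF0 : ∀ a i, IsDeg m D (F0 a i))
    (S : A → (Fin w → ZMod m) → W) (φ : O → ℂ) (hφ : ∀ o, ‖φ o‖ ≤ 1)
    (c : I → ZMod 2) (hc : c ∈ 𝒮) (P : Prog A W O) :
    ∀ (T : ℕ) (u : (I → Bool) → ℂ), Sm ψ D 𝒮 b u →
      ‖∑ x, u x * (chi c x * (if (P.addrs (fun a => S a (fun i => F0 a i x))).length ≤ T then
        φ (P.out (fun a => S a (fun i => F0 a i x))) else 0))‖ ≤ ((m : ℝ) ^ w) ^ T * b := by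
  classical
  have hm1 : (1 : ℝ) ≤ m := by exact_mod_cast NeZero.one_le
  induction P with
  | done o =>
    intro T u hu
    have h1 : ∀ x : I → Bool, u x * (chi c x *
        (if ((Prog.done o : Prog A W O).addrs (fun a => S a (fun i => F0 a i x))).length ≤ T then
        φ ((Prog.done o : Prog A W O).out (fun a => S a (fun i => F0 a i x))) else 0)) =
        φ o * (u x * (chi c x * ψ ((fun _ => (0 : ZMod m)) x))) := by
      intro x
      have h2 : ((Prog.done o : Prog A W O).addrs
          (fun a => S a (fun i => F0 a i x))).length ≤ T := by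
        simp [Prog.addrs]
      rw [if_pos h2, AddChar.map_zero_eq_one]
      simp only [Prog.out]
      ring
    simp only [h1]
    rw [← Finset.mul_sum, norm_mul]
    have h3 := hu c hc (fun _ => 0) (IsDeg.const m D 0)
    have h4 : (1 : ℝ) ≤ ((m : ℝ) ^ w) ^ T := one_le_pow₀ (one_le_pow₀ hm1)
    calc ‖φ o‖ * ‖_‖ ≤ 1 * b := mul_le_mul (hφ o) h3 (norm_nonneg _) (by norm_num)
      _ ≤ ((m : ℝ) ^ w) ^ T * b := mul_le_mul_of_nonneg_right h4 hb
  | probe a k ih =>
    intro T u hu
    rcases T with _ | T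
    · have h1 : ∀ x : I → Bool, u x * (chi c x *
          (if ((Prog.probe a k : Prog A W O).addrs (fun a => S a (fun i => F0 a i x))).length ≤ 0
          then φ ((Prog.probe a k : Prog A W O).out (fun a => S a (fun i => F0 a i x))) else 0)) =
          0 := by
        intro x
        rw [if_neg]
        · ring
        · simp [Prog.addrs]
      simp only [h1, Finset.sum_const_zero, norm_zero]
      positivity
    · have h1 : ∀ x : I → Bool, u x * (chi c x *
          (if ((Prog.probe a k : Prog A W O).addrs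
            (fun a => S a (fun i => F0 a i x))).length ≤ T + 1
          then φ ((Prog.probe a k : Prog A W O).out (fun a => S a (fun i => F0 a i x))) else 0)) =
          ∑ f : Fin w → ZMod m, (u x * (if ∀ i ∈ (univ : Finset (Fin w)), F0 a i x = f i
            then 1 else 0)) *
            (chi c x * (if ((k (S a f)).addrs (fun a => S a (fun i => F0 a i x))).length ≤ T then
        φ ((k (S a f)).out (fun a => S a (fun i => F0 a i x))) else 0)) := by
        intro x
        rw [Finset.sum_eq_single (fun i => F0 a i x)]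
        · have h2 : (∀ i ∈ (univ : Finset (Fin w)), F0 a i x = (fun i => F0 a i x) i) :=
            fun i _ => rfl
          rw [if_pos h2]
          simp only [Prog.addrs, Prog.out, List.length_cons, Nat.add_le_add_iff_right, mul_one]
        · intro f _ hf
          rw [if_neg]
          · ring
          · intro h3
            exact hf (funext fun i => (h3 i (Finset.mem_univ i)).symm)
        · intro h3
          exact absurd (Finset.mem_univ _) h3
      simp only [h1]
      rw [Finset.sum_comm]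
      refine (norm_sum_le _ _).trans ?_
      calc ∑ f : Fin w → ZMod m, ‖∑ x, (u x * (if ∀ i ∈ (univ : Finset (Fin w)), F0 a i x = f i
            then 1 else 0)) *
            (chi c x * (if ((k (S a f)).addrs (fun a => S a (fun i => F0 a i x))).length ≤ T then
        φ ((k (S a f)).out (fun a => S a (fun i => F0 a i x))) else 0))‖ ≤
            ∑ _f : Fin w → ZMod m, ((m : ℝ) ^ w) ^ T * b := by
            apply Finset.sum_le_sum
            intro f _
            have h5 := hu.cell hψ univ (F0 a) (hF0 a) f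
            exact ih (S a f) T (fun x => u x * (if ∀ i ∈ (univ : Finset (Fin w)), F0 a i x = f i
              then 1 else 0)) (by convert h5)
        _ = ((m : ℝ) ^ w) ^ (T + 1) * b := by
            rw [Finset.sum_const, Finset.card_univ, Fintype.card_fun, ZMod.card,
              Fintype.card_fin, nsmul_eq_mul]
            push_cast
            ring

end Pool.Agent.K9h48.MG
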