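import Pool.Agent.K9h48.MG.Run
import Pool.Agent.K9h48.MG.Cnt
import Pool.Agent.K9h48.MG.Model

/-!
# The probability of a right answer after few probes
-/

set_option autoImplicit false
set_option linter.unusedSectionVars false

namespace Pool.Agent.K9h48.MG

open Finset H568R2
open Pool.Agent.H699R2.OMV (Prog Vec Mat)
open Pool.Agent.TH163.AC2 (toMat toM gm gm_eq toM_mulVec free unif unif_mono unif_const)

variable {n : ℕ}

/-! ### indicators as sums of signs -/

lemma ind_vec (a b : Vec n) : (if a = b then (1 : ℂ) else 0) =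
    (1 / 2 ^ n) * ∑ R : Vec n, sg (∑ r, R r * (a r + b r)) := by
  classical
  have h01 : ∀ a : ZMod 2, a = 0 ∨ a = 1 := by decide
  have hc : (Fintype.card (Vec n) : ℂ) = 2 ^ n := by
    rw [Fintype.card_fun, ZMod.card, Fintype.card_fin]
    push_cast
    rfl
  by_cases h : a = b
  · rw [if_pos h]
    have h1 : ∀ R : Vec n, sg (∑ r, R r * (a r + b r)) = 1 := by
      intro R
      have h2 : ∑ r, R r * (a r + b r) = 0 := by
        apply Finset.sum_eq_zero
        intro r _
        have h3 : ∀ z : ZMod 2, z + z = 0 := by decide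
        rw [h, h3, mul_zero]
      rw [h2, sg_zero]
    simp only [h1, Finset.sum_const, Finset.card_univ, nsmul_eq_mul, mul_one, hc]
    field_simp
  · rw [if_neg h]
    obtain ⟨r0, hr0⟩ : ∃ r, a r ≠ b r := by
      by_contra hcon
      push Not at hcon
      exact h (funext hcon)
    have h1 : ∀ R : Vec n, sg (∑ r, R r * (a r + b r)) = ∏ r, sg (R r * (a r + b r)) :=
      fun R => sg_sum _ _
    simp only [h1]
    have h2 := Finset.prod_univ_sum (fun _ : Fin n => (univ : Finset (ZMod 2)))
      (fun r t => sg (t * (a r + b r)))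
    rw [Fintype.piFinset_univ] at h2
    rw [← h2, Finset.prod_eq_zero (Finset.mem_univ r0), mul_zero]
    have hu : (univ : Finset (ZMod 2)) = {0, 1} := by decide
    rw [hu, Finset.sum_pair (by decide)]
    have h3 : a r0 + b r0 = 1 := by
      have h4 : ∀ x y : ZMod 2, x ≠ y → x + y = 1 := by decide
      exact h4 _ _ hr0
    rw [h3]
    simp [sg]

/-! ### the coefficients of the parities -/

variable (G : (Mat n)ˣ) (B : Fin n → (Mat n)ˣ) (ρ : Restr (Fin n × Fin n))

/-- the coefficients of a product entry -/
def rowc (v : Vec n) (r : Fin n) : Fin n × Fin n → ZMod 2 :=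
  fun e => if ρ e = none then (if e.1 = r then ((↑(B r)⁻¹ : Mat n).mulVec v) e.2 else 0) else 0

/-- the coefficients of a combination of entries of the products -/
def sumc (h : List (Vec n)) (v : Vec n) (R : Vec n) (U : Fin n → Fin h.length → ZMod 2) :
    Fin n × Fin n → ZMod 2 :=
  fun e => if ρ e = none then
    (R e.1 * ((↑(B e.1)⁻¹ : Mat n).mulVec v) e.2 + comb (B e.1) h (U e.1) e.2) else 0

lemma toMat_ov (x : Fin n × Fin n → Bool) (r c : Fin n) :
    toMat (ov ρ x) r c = toMat (ov ρ (fun _ => false)) r c +
      (if ρ (r, c) = none then bt (x (r, c)) else 0) := by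
  unfold toMat ov bt
  cases hρ : ρ (r, c) with
  | none => simp
  | some b => simp

lemma gm_ov (x : Fin n × Fin n → Bool) (v : Vec n) (r : Fin n) :
    gm B (ov ρ x) v r = gm B (ov ρ (fun _ => false)) v r + ∑ e, rowc B ρ v r e * bt (x e) := by
  have h1 : ∑ e, rowc B ρ v r e * bt (x e) =
      ∑ c, (if ρ (r, c) = none then bt (x (r, c)) else 0) * ((↑(B r)⁻¹ : Mat n).mulVec v) c := by
    rw [Fintype.sum_prod_type, Finset.sum_eq_single r]
    · apply Finset.sum_congr rfl
      intro c _
      unfold rowc
      by_cases h : ρ (r, c) = none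
      · simp [h, mul_comm]
      · simp [h]
    · intro b _ hb
      apply Finset.sum_eq_zero
      intro c _
      unfold rowc
      simp [hb]
    · intro h
      exact absurd (Finset.mem_univ _) h
  have h2 : ∀ (Z : Mat n) (u : Vec n), Z.mulVec u r = ∑ c, Z r c * u c := fun _ _ => rfl
  have h3 : ∀ X : Fin n × Fin n → Bool, gm B X v r =
      ∑ c, toMat X r c * ((↑(B r)⁻¹ : Mat n).mulVec v) c := fun X => h2 _ _
  rw [h1, h3, h3, ← Finset.sum_add_distrib]
  apply Finset.sum_congr rfl
  intro c _
  rw [toMat_ov, add_mul]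

lemma sg_gm (v : Vec n) (r : Fin n) (x : Fin n × Fin n → Bool) :
    sg (gm B (ov ρ x) v r) = sg (gm B (ov ρ (fun _ => false)) v r) * chi (rowc B ρ v r) x := by
  rw [gm_ov, sg_add]
  rfl

lemma rowc_add_sumc (h : List (Vec n)) (v R : Vec n) (U : Fin n → Fin h.length → ZMod 2)
    (i : Fin h.length) (r : Fin n) :
    rowc B ρ (h.get i) r + sumc B ρ h v R U = sumc B ρ h v R
      (Function.update U r (Function.update (U r) i (U r i + 1))) := by
  funext e
  rw [Pi.add_apply]
  unfold rowc sumc
  by_cases h1 : ρ e = none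
  · rw [if_pos h1, if_pos h1, if_pos h1]
    by_cases h2 : e.1 = r
    · rw [if_pos h2, h2, Function.update_self]
      have h3 : comb (B r) h (Function.update (U r) i (U r i + 1)) e.2 =
          comb (B r) h (U r) e.2 + ((↑(B r)⁻¹ : Mat n).mulVec (h.get i)) e.2 := by
        unfold comb
        have h4 : ∀ j : Fin h.length, Function.update (U r) i (U r i + 1) j *
            ((↑(B r)⁻¹ : Mat n).mulVec (h.get j)) e.2 =
            U r j * ((↑(B r)⁻¹ : Mat n).mulVec (h.get j)) e.2 +
            (if j = i then ((↑(B r)⁻¹ : Mat n).mulVec (h.get i)) e.2 else 0) := by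
          intro j
          by_cases hj : j = i
          · subst hj
            rw [Function.update_self, if_pos rfl]
            ring
          · rw [Function.update_of_ne hj, if_neg hj, add_zero]
        rw [Finset.sum_congr rfl (fun j _ => h4 j), Finset.sum_add_distrib,
          Finset.sum_ite_eq' univ i]
        simp
      rw [h3]
      ring
    · rw [if_neg h2, Function.update_of_ne h2, zero_add]
  · rw [if_neg h1, if_neg h1, if_neg h1, add_zero]

lemma sg_comb (h : List (Vec n)) (v R : Vec n) (x : Fin n × Fin n → Bool) :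
    sg (∑ r, R r * gm B (ov ρ x) v r) =
      sg (∑ r, R r * gm B (ov ρ (fun _ => false)) v r) *
        chi (sumc B ρ h v R (fun _ _ => 0)) x := by
  unfold chi
  rw [← sg_add]
  congr 1
  simp only [gm_ov B ρ x, mul_add, Finset.sum_add_distrib]
  congr 1
  simp only [Finset.mul_sum]
  rw [Finset.sum_comm]
  apply Finset.sum_congr rfl
  intro e _
  rw [Finset.sum_eq_single e.1]
  · unfold rowc sumc comb
    by_cases h1 : ρ e = none
    · simp [h1]
      ring
    · simp [h1]
  · intro r _ hr
    have h2 : ¬ e.1 = r := fun h2 => hr h2.symm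
    unfold rowc
    simp [h2]
  · intro h2
    exact absurd (Finset.mem_univ _) h2

/-- the vector `v` is good in all rows -/
def GoodV (h : List (Vec n)) (D0 : ℕ) (v : Vec n) : Prop :=
  ∀ r, ¬ BadV (B r) (free ρ r) h D0 v

lemma wt_sumc (h : List (Vec n)) (D0 k0 : ℕ) (v R : Vec n) (hv : GoodV B ρ h D0 v)
    (hR : k0 ≤ (univ.filter (fun r => R r ≠ 0)).card) (U : Fin n → Fin h.length → ZMod 2) :
    D0 * k0 ≤ wt (sumc B ρ h v R U) := by
  classical
  unfold wt
  rw [Finset.card_eq_sum_card_fiberwise (f := Prod.fst) (t := univ)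
    (fun _ _ => Finset.mem_coe.2 (Finset.mem_univ _))]
  calc D0 * k0 ≤ ∑ r ∈ univ.filter (fun r => R r ≠ 0), D0 := by
        rw [Finset.sum_const, smul_eq_mul, mul_comm]
        exact Nat.mul_le_mul_right _ hR
    _ ≤ ∑ r ∈ univ.filter (fun r => R r ≠ 0), ((univ.filter
        (fun e => sumc B ρ h v R U e ≠ 0)).filter (fun e : Fin n × Fin n => e.1 = r)).card := by
        apply Finset.sum_le_sum
        intro r hr
        have hr1 : R r = 1 := by
          have h01 : ∀ a : ZMod 2, a ≠ 0 → a = 1 := by decide
          exact h01 _ (Finset.mem_filter.1 hr).2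
        have h1 := hv r
        unfold BadV at h1
        push Not at h1
        have h2 := h1 (U r)
        unfold Low at h2
        rw [not_lt] at h2
        refine h2.trans ?_
        apply Finset.card_le_card_of_injOn (fun c => (r, c))
        · intro c hc
          have hc' := Finset.mem_filter.1 (Finset.mem_coe.1 hc)
          have hf : ρ (r, c) = none := (Finset.mem_filter.1 hc'.1).2
          rw [Finset.mem_coe, Finset.mem_filter, Finset.mem_filter]
          refine ⟨⟨Finset.mem_univ _, ?_⟩, rfl⟩
          unfold sumc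
          rw [if_pos hf]
          show R r * ((↑(B r)⁻¹ : Mat n).mulVec v) c + comb (B r) h (U r) c ≠ 0
          rw [hr1, one_mul]
          exact hc'.2
        · intro c _ c' _ hcc
          exact (Prod.mk.inj hcc).2
    _ ≤ _ := Finset.sum_le_sum_of_subset (Finset.filter_subset _ _)

end Pool.Agent.K9h48.MG
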