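import Pool.Agent.K9h48.MG.Succ

/-!
# The probability of a right answer after few probes: the bound
-/

set_option autoImplicit false
set_option linter.unusedSectionVars false

namespace Pool.Agent.K9h48.MG

open Finset H568R2
open Pool.Agent.H699R2.OMV (Prog Vec Mat)
open Pool.Agent.TH163.AC2 (toMat toM gm gm_eq toM_mulVec free unif unif_mono unif_const)

variable {n : ℕ}

variable (G : (Mat n)ˣ) (B : Fin n → (Mat n)ˣ) (ρ : Restr (Fin n × Fin n))

/-- the list of the earlier answers, from their coordinates -/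
def lst (h : List (Vec n)) (Y : Fin h.length → Vec n) : List (Vec n) :=
  List.ofFn (fun i => (↑G⁻¹ : Mat n).mulVec (Y i))

lemma lst_eq (h : List (Vec n)) (X : Fin n × Fin n → Bool) :
    h.map (toM G B X).mulVec = lst G h (fun i => gm B X (h.get i)) := by
  unfold lst
  have h1 : (fun i => (↑G⁻¹ : Mat n).mulVec (gm B X (h.get i))) =
      (toM G B X).mulVec ∘ h.get := by
    funext i
    rw [Function.comp_apply, toM_mulVec]
  rw [h1, ← List.map_ofFn, List.ofFn_get]

lemma sm_uY {m : ℕ} [NeZero m] (hm : Odd m) (ψ : AddChar (ZMod m) ℂ) (D : ℕ)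
    (h : List (Vec n)) (D0 k0 : ℕ) (v R : Vec n) (hv : GoodV B ρ h D0 v)
    (hR : k0 ≤ (univ.filter (fun r => R r ≠ 0)).card) (Y : Fin h.length → Vec n)
    (s : Finset (Fin h.length × Fin n)) :
    Sm ψ D {c | ∃ U, c = sumc B ρ h v R U}
      (2 ^ Fintype.card (Fin n × Fin n) * (1 - (2 / (m * 2 ^ m : ℝ)) ^ D) ^ (D0 * k0))
      (fun x => if ∀ p ∈ s, gm B (ov ρ x) (h.get p.1) p.2 = Y p.1 p.2 then 1 else 0) := by
  classical
  induction s using Finset.induction_on with
  | empty =>
    have h1 := Sm.one hm ψ D {c | ∃ U, c = sumc B ρ h v R U} (D0 * k0) (by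
      rintro c ⟨U, rfl⟩
      exact wt_sumc B ρ h D0 k0 v R hv hR U)
    simpa using h1
  | insert p s hp ih =>
    have h1 := ih.lin (fun x => gm B (ov ρ x) (h.get p.1) p.2) (rowc B ρ (h.get p.1) p.2)
      (sg (gm B (ov ρ (fun _ => false)) (h.get p.1) p.2)) (norm_sg _)
      (fun x => sg_gm B ρ _ _ x) (by
        rintro c ⟨U, rfl⟩
        exact ⟨_, rowc_add_sumc B ρ h v R U p.1 p.2⟩) (Y p.1 p.2)
    have h2 : (fun x : Fin n × Fin n → Bool =>
        if ∀ p' ∈ insert p s, gm B (ov ρ x) (h.get p'.1) p'.2 = Y p'.1 p'.2 then (1 : ℂ) else 0) =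
        fun x => (if ∀ p ∈ s, gm B (ov ρ x) (h.get p.1) p.2 = Y p.1 p.2 then (1 : ℂ) else 0) *
          (if gm B (ov ρ x) (h.get p.1) p.2 = Y p.1 p.2 then 1 else 0) := by
      funext x
      by_cases h3 : gm B (ov ρ x) (h.get p.1) p.2 = Y p.1 p.2
      · by_cases h4 : ∀ p ∈ s, gm B (ov ρ x) (h.get p.1) p.2 = Y p.1 p.2
        · rw [if_pos h3, if_pos h4, if_pos]
          · ring
          · intro k' hk'
            rcases Finset.mem_insert.1 hk' with rfl | hk'
            · exact h3
            · exact h4 k' hk'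
        · rw [if_neg h4, if_neg]
          · ring
          · intro h5
            exact h4 (fun k' hk' => h5 k' (Finset.mem_insert_of_mem hk'))
      · rw [if_neg h3, if_neg]
        · ring
        · intro h5
          exact h3 (h5 p (Finset.mem_insert_self _ _))
    rw [h2]
    exact h1

/-- the indicator of a right answer after at most `T` probes -/
noncomputable def evI {A W : Type} (prog : List (Vec n) → Prog A W (Vec n))
    (mem : (Fin n × Fin n → Bool) → A → W) (h : List (Vec n)) (v : Vec n) (T : ℕ)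
    (x : Fin n × Fin n → Bool) : ℝ :=
  open Classical in
  if (prog (h.map (toM G B (ov ρ x)).mulVec)).out (mem x) = (toM G B (ov ρ x)).mulVec v ∧
    ((prog (h.map (toM G B (ov ρ x)).mulVec)).addrs (mem x)).length ≤ T then 1 else 0

lemma evI_eq {A W : Type} (prog : List (Vec n) → Prog A W (Vec n))
    (mem : (Fin n × Fin n → Bool) → A → W) (h : List (Vec n)) (v : Vec n) (T : ℕ)
    (x : Fin n × Fin n → Bool) :
    (evI G B ρ prog mem h v T x : ℂ) = ∑ Y : Fin h.length → Vec n,
      (if ∀ p ∈ (univ : Finset (Fin h.length × Fin n)),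
        gm B (ov ρ x) (h.get p.1) p.2 = Y p.1 p.2 then (1 : ℂ) else 0) *
      ((1 / 2 ^ n) * ∑ R : Vec n, sg (∑ r, R r * gm B (ov ρ (fun _ => false)) v r) *
        (chi (sumc B ρ h v R (fun _ _ => 0)) x *
          (if ((prog (lst G h Y)).addrs (mem x)).length ≤ T then
            sg (∑ r, R r * ((G : Mat n).mulVec ((prog (lst G h Y)).out (mem x))) r) else 0))) := by
  classical
  rw [Finset.sum_eq_single (fun i => gm B (ov ρ x) (h.get i))]
  · rw [if_pos (fun p _ => rfl), one_mul, ← lst_eq G B h (ov ρ x)]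
    set P := prog (h.map (toM G B (ov ρ x)).mulVec) with hP
    have h1 : ∀ R : Vec n, sg (∑ r, R r * gm B (ov ρ (fun _ => false)) v r) *
        (chi (sumc B ρ h v R (fun _ _ => 0)) x *
          (if (P.addrs (mem x)).length ≤ T then
            sg (∑ r, R r * ((G : Mat n).mulVec (P.out (mem x))) r) else 0)) =
        (if (P.addrs (mem x)).length ≤ T then (1 : ℂ) else 0) *
          sg (∑ r, R r * (gm B (ov ρ x) v r + ((G : Mat n).mulVec (P.out (mem x))) r)) := by
      intro R
      have h2 : sg (∑ r, R r * (gm B (ov ρ x) v r + ((G : Mat n).mulVec (P.out (mem x))) r)) =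
          sg (∑ r, R r * gm B (ov ρ x) v r) *
            sg (∑ r, R r * ((G : Mat n).mulVec (P.out (mem x))) r) := by
        rw [← sg_add, ← Finset.sum_add_distrib]
        congr 1
        apply Finset.sum_congr rfl
        intro r _
        rw [mul_add]
      rw [h2, sg_comb B ρ h v R x]
      split_ifs
      · ring
      · ring
    simp only [h1]
    rw [← Finset.mul_sum, mul_left_comm, ← ind_vec]
    have h3 : (gm B (ov ρ x) v = (G : Mat n).mulVec (P.out (mem x))) ↔
        P.out (mem x) = (toM G B (ov ρ x)).mulVec v := by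
      rw [gm_eq G B]
      constructor
      · intro h4
        have h5 := congrArg (fun z => (↑G⁻¹ : Mat n).mulVec z) h4
        simp only [Matrix.mulVec_mulVec, Units.inv_mul, Matrix.one_mulVec] at h5
        rw [← Matrix.mulVec_mulVec, ← Matrix.mulVec_mulVec, Matrix.mulVec_mulVec,
          Matrix.mulVec_mulVec] at h5
        simpa [Matrix.mulVec_mulVec, ← Matrix.mul_assoc] using h5.symm
      · intro h4
        rw [h4]
    unfold evI
    rw [← hP]
    by_cases h4 : P.out (mem x) = (toM G B (ov ρ x)).mulVec v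
    · by_cases h5 : (P.addrs (mem x)).length ≤ T
      · rw [if_pos ⟨h4, h5⟩, if_pos h5, if_pos (h3.2 h4)]
        simp
      · rw [if_neg (fun h => h5 h.2), if_neg h5]
        simp
    · rw [if_neg (fun h => h4 h.1), if_neg (fun h => h4 (h3.1 h))]
      simp
  · intro Y _ hY
    rw [if_neg]
    · rw [zero_mul]
    · intro h1
      apply hY
      funext i r
      exact (h1 (i, r) (Finset.mem_univ _)).symm
  · intro h1
    exact absurd (Finset.mem_univ _) h1

end Pool.Agent.K9h48.MG
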