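import Pool.Agent.K9h48.MG.Succ2

/-!
# The probability of a right answer after few probes: the final bound
-/

set_option autoImplicit false
set_option linter.unusedSectionVars false

namespace Pool.Agent.K9h48.MG

open Finset H568R2
open Pool.Agent.H699R2.OMV (Prog Vec Mat)
open Pool.Agent.TH163.AC2 (toMat toM gm gm_eq toM_mulVec free unif unif_mono unif_const)

variable {n : ℕ}

variable (G : (Mat n)ˣ) (B : Fin n → (Mat n)ˣ) (ρ : Restr (Fin n × Fin n))

open Classical in
lemma sum_uY (h : List (Vec n)) (x : Fin n × Fin n → Bool) :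
    ∑ Y : Fin h.length → Vec n, (if ∀ p ∈ (univ : Finset (Fin h.length × Fin n)),
        gm B (ov ρ x) (h.get p.1) p.2 = Y p.1 p.2 then (1 : ℝ) else 0) = 1 := by
  rw [Finset.sum_eq_single (fun i => gm B (ov ρ x) (h.get i))]
  · rw [if_pos (fun p _ => rfl)]
  · intro Y _ hY
    rw [if_neg]
    intro h1
    apply hY
    funext i r
    exact (h1 (i, r) (Finset.mem_univ _)).symm
  · intro h1
    exact absurd (Finset.mem_univ _) h1

open Classical in
theorem succ_le {m : ℕ} [NeZero m] (hm : Odd m) (D : ℕ) {A W : Type} {w : ℕ}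
    (prog : List (Vec n) → Prog A W (Vec n))
    (F0 : A → Fin w → (Fin n × Fin n → Bool) → ZMod m) (hF0 : ∀ a i, IsDeg m D (F0 a i))
    (S : A → (Fin w → ZMod m) → W) (h : List (Vec n)) (v : Vec n) (D0 k0 T : ℕ)
    (hv : GoodV B ρ h D0 v) (hk : 16 * k0 ≤ n) :
    unif (evI G B ρ prog (fun x a => S a (fun i => F0 a i x)) h v T) ≤
      1 / 2 ^ (10 * k0) + 2 ^ (n * h.length) *
        (((m : ℝ) ^ w) ^ T * (1 - (2 / (m * 2 ^ m : ℝ)) ^ D) ^ (D0 * k0)) := by
  set mem : (Fin n × Fin n → Bool) → A → W := fun x a => S a (fun i => F0 a i x) with hmem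
  set N := Fintype.card (Fin n × Fin n) with hN
  obtain ⟨hθ0, hθ1⟩ := theta_le hm.pos
  set μ : ℝ := 1 - (2 / (m * 2 ^ m : ℝ)) ^ D with hμ
  have hμ0 : 0 ≤ μ := by
    have h2 : (2 / (m * 2 ^ m : ℝ)) ^ D ≤ 1 := pow_le_one₀ hθ0 hθ1
    linarith
  set b : ℝ := 2 ^ N * μ ^ (D0 * k0) with hb
  have hb0 : 0 ≤ b := by positivity
  set b' : ℝ := ((m : ℝ) ^ w) ^ T * b with hb'
  have hb'0 : 0 ≤ b' := by positivity
  let uR : (Fin h.length → Vec n) → (Fin n × Fin n → Bool) → ℝ := fun Y x =>
    if ∀ p ∈ (univ : Finset (Fin h.length × Fin n)),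
        gm B (ov ρ x) (h.get p.1) p.2 = Y p.1 p.2 then (1 : ℝ) else 0
  have huR0 : ∀ Y x, 0 ≤ uR Y x := by
    intro Y x
    simp only [uR]
    split_ifs <;> norm_num
  let Lt : Vec n → Prop := fun R => Low (univ : Finset (Fin n)) k0 R
  have hψ := ZMod.isPrimitive_stdAddChar m
  -- one term
  have hterm : ∀ (Y : Fin h.length → Vec n) (R : Vec n),
      ‖∑ x : Fin n × Fin n → Bool, (if ∀ p ∈ (univ : Finset (Fin h.length × Fin n)),
        gm B (ov ρ x) (h.get p.1) p.2 = Y p.1 p.2 then (1 : ℂ) else 0) *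
        (chi (sumc B ρ h v R (fun _ _ => 0)) x *
          (if ((prog (lst G h Y)).addrs (mem x)).length ≤ T then
            sg (∑ r, R r * ((G : Mat n).mulVec ((prog (lst G h Y)).out (mem x))) r) else 0))‖ ≤
      (if Lt R then (1 : ℝ) else 0) * (∑ x, uR Y x) + b' := by
    intro Y R
    by_cases hR : Lt R
    · rw [if_pos hR, one_mul]
      refine le_trans ?_ (le_add_of_nonneg_right hb'0)
      refine (norm_sum_le _ _).trans ?_
      apply Finset.sum_le_sum
      intro x _
      rw [norm_mul, norm_mul, norm_chi, one_mul]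
      have h1 : ‖(if ((prog (lst G h Y)).addrs (mem x)).length ≤ T then
            sg (∑ r, R r * ((G : Mat n).mulVec ((prog (lst G h Y)).out (mem x))) r) else 0)‖ ≤ 1 := by
        split_ifs
        · rw [norm_sg]
        · simp
      have h2 : ‖(if ∀ p ∈ (univ : Finset (Fin h.length × Fin n)),
        gm B (ov ρ x) (h.get p.1) p.2 = Y p.1 p.2 then (1 : ℂ) else 0)‖ = uR Y x := by
        simp only [uR]
        split_ifs <;> simp
      rw [h2]
      calc uR Y x * _ ≤ uR Y x * 1 := mul_le_mul_of_nonneg_left h1 (huR0 Y x)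
        _ = uR Y x := mul_one _
    · rw [if_neg hR, zero_mul, zero_add]
      have hR' : k0 ≤ (univ.filter (fun r => R r ≠ 0)).card := not_lt.1 hR
      have h1 := sm_uY B ρ hm (ZMod.stdAddChar (N := m)) D h D0 k0 v R hv hR' Y univ
      have hin : sumc B ρ h v R (fun _ _ => 0) ∈ {c | ∃ U, c = sumc B ρ h v R U} := ⟨_, rfl⟩
      have h2 := prog_le hψ (𝒮 := {c | ∃ U, c = sumc B ρ h v R U}) (hb := hb0) F0 hF0 S
        (fun o : Vec n => sg (∑ r, R r * ((G : Mat n).mulVec o) r)) (fun o => (norm_sg _).le)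
        (sumc B ρ h v R (fun _ _ => 0)) hin (prog (lst G h Y)) T _ h1
      convert h2
  -- the sum over all assignments
  have hsum : ((∑ x, evI G B ρ prog mem h v T x : ℝ) : ℂ) =
      ∑ Y : Fin h.length → Vec n, (1 / 2 ^ n) * ∑ R : Vec n,
        sg (∑ r, R r * gm B (ov ρ (fun _ => false)) v r) *
        ∑ x : Fin n × Fin n → Bool, (if ∀ p ∈ (univ : Finset (Fin h.length × Fin n)),
        gm B (ov ρ x) (h.get p.1) p.2 = Y p.1 p.2 then (1 : ℂ) else 0) *
        (chi (sumc B ρ h v R (fun _ _ => 0)) x *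
          (if ((prog (lst G h Y)).addrs (mem x)).length ≤ T then
            sg (∑ r, R r * ((G : Mat n).mulVec ((prog (lst G h Y)).out (mem x))) r) else 0)) := by
    rw [Complex.ofReal_sum]
    simp only [evI_eq]
    rw [Finset.sum_comm]
    apply Finset.sum_congr rfl
    intro Y _
    simp only [Finset.mul_sum]
    rw [Finset.sum_comm]
    apply Finset.sum_congr rfl
    intro R _
    apply Finset.sum_congr rfl
    intro x _
    have h9 : ∀ a b c d e : ℂ, a = e → a * (b * (c * d)) = b * (c * (e * d)) := by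
      intro a b c d e h
      rw [h]
      ring
    apply h9
    split_ifs <;> rfl
  have h2n : ‖(1 / 2 ^ n : ℂ)‖ = 1 / 2 ^ n := by simp
  have hlight : ((univ.filter (fun R : Vec n => Lt R)).card : ℝ) ≤ 2 ^ n / 2 ^ (10 * k0) := by
    have h1 := low_count (univ : Finset (Fin n)) k0 (by
      rw [Finset.card_univ, Fintype.card_fin]
      exact hk)
    convert h1
  have hcV : (Fintype.card (Vec n) : ℝ) = 2 ^ n := by
    rw [Fintype.card_fun, ZMod.card, Fintype.card_fin]
    push_cast
    rfl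
  have hY : ∀ Y : Fin h.length → Vec n, ‖(1 / 2 ^ n : ℂ) * ∑ R : Vec n,
        sg (∑ r, R r * gm B (ov ρ (fun _ => false)) v r) *
        ∑ x : Fin n × Fin n → Bool, (if ∀ p ∈ (univ : Finset (Fin h.length × Fin n)),
        gm B (ov ρ x) (h.get p.1) p.2 = Y p.1 p.2 then (1 : ℂ) else 0) *
        (chi (sumc B ρ h v R (fun _ _ => 0)) x *
          (if ((prog (lst G h Y)).addrs (mem x)).length ≤ T then
            sg (∑ r, R r * ((G : Mat n).mulVec ((prog (lst G h Y)).out (mem x))) r) else 0))‖ ≤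
      (1 / 2 ^ (10 * k0)) * (∑ x, uR Y x) + b' := by
    intro Y
    have hU0 : 0 ≤ ∑ x, uR Y x := Finset.sum_nonneg (fun x _ => huR0 Y x)
    rw [norm_mul, h2n]
    have h1 : ‖∑ R : Vec n,
        sg (∑ r, R r * gm B (ov ρ (fun _ => false)) v r) *
        ∑ x : Fin n × Fin n → Bool, (if ∀ p ∈ (univ : Finset (Fin h.length × Fin n)),
        gm B (ov ρ x) (h.get p.1) p.2 = Y p.1 p.2 then (1 : ℂ) else 0) *
        (chi (sumc B ρ h v R (fun _ _ => 0)) x *
          (if ((prog (lst G h Y)).addrs (mem x)).length ≤ T then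
            sg (∑ r, R r * ((G : Mat n).mulVec ((prog (lst G h Y)).out (mem x))) r) else 0))‖ ≤
        (2 ^ n / 2 ^ (10 * k0)) * (∑ x, uR Y x) + 2 ^ n * b' := by
      refine (norm_sum_le _ _).trans ?_
      calc _ ≤ ∑ R : Vec n, ((if Lt R then (1 : ℝ) else 0) * (∑ x, uR Y x) + b') := by
            apply Finset.sum_le_sum
            intro R _
            rw [norm_mul, norm_sg, one_mul]
            exact hterm Y R
        _ = ((univ.filter (fun R : Vec n => Lt R)).card : ℝ) * (∑ x, uR Y x) + 2 ^ n * b' := by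
            rw [Finset.sum_add_distrib, ← Finset.sum_mul, Finset.sum_boole, Finset.sum_const,
              Finset.card_univ, nsmul_eq_mul, hcV]
        _ ≤ _ := by
            have := mul_le_mul_of_nonneg_right hlight hU0
            linarith
    have h3 : (0 : ℝ) < 2 ^ n := by positivity
    calc (1 / 2 ^ n : ℝ) * _ ≤ (1 / 2 ^ n : ℝ) *
          ((2 ^ n / 2 ^ (10 * k0)) * (∑ x, uR Y x) + 2 ^ n * b') :=
          mul_le_mul_of_nonneg_left h1 (by positivity)
      _ = _ := by
          field_simp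
  have hnn : 0 ≤ ∑ x, evI G B ρ prog mem h v T x := by
    apply Finset.sum_nonneg
    intro x _
    unfold evI
    split_ifs <;> norm_num
  have hfin : ∑ x, evI G B ρ prog mem h v T x ≤
      (1 / 2 ^ (10 * k0)) * 2 ^ N + 2 ^ (n * h.length) * b' := by
    have h1 : ‖((∑ x, evI G B ρ prog mem h v T x : ℝ) : ℂ)‖ =
        ∑ x, evI G B ρ prog mem h v T x := by
      rw [Complex.norm_real, Real.norm_of_nonneg hnn]
    rw [← h1, hsum]
    refine (norm_sum_le _ _).trans ?_
    refine (Finset.sum_le_sum (fun Y _ => hY Y)).trans ?_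
    rw [Finset.sum_add_distrib, ← Finset.mul_sum, Finset.sum_comm, Finset.sum_const,
      Finset.card_univ, nsmul_eq_mul]
    have h2 : ∑ x, ∑ Y, uR Y x = 2 ^ N := by
      simp only [uR, sum_uY]
      rw [Finset.sum_const, Finset.card_univ, Fintype.card_fun, Fintype.card_bool, nsmul_eq_mul,
        mul_one]
      push_cast
      rfl
    rw [h2]
    apply le_of_eq
    congr 2
    rw [Fintype.card_fun, Fintype.card_fin, Fintype.card_fun, ZMod.card, Fintype.card_fin]
    push_cast
    rw [← pow_mul]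
  unfold unif
  rw [Fintype.card_fun, Fintype.card_bool]
  push_cast
  rw [← hN, div_le_iff₀ (by positivity)]
  refine hfin.trans (le_of_eq ?_)
  rw [hb', hb]
  ring

end Pool.Agent.K9h48.MG
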